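import Pool.Agent.Lib.MP_3f0e40_al.OU.Defs
import Pool.Agent.Lib.MP_3f0e40_al.OS.Base

set_option autoImplicit false

/-!
# The rows `0, ..., m` are detected by finite quotients (port of `OS/Base.lean`)
-/

namespace Pool.Agent.MP3f0e40.OU

open scoped commutatorElement
open Pool.Agent.MP3f0e40.OS (Low lev join shf low Det bs_free)

namespace Base

theorem ev2_map' {G H : Type} [Group G] [Group H] (f : G →* H) (x z : G)
    (w : FreeGroup (Fin 2)) : f (ev2 x z w) = ev2 (f x) (f z) w := by
  have h : f.comp (ev2 x z) = ev2 (f x) (f z) := by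
    ext i
    fin_cases i <;> simp [ev2]
  exact DFunLike.congr_fun h w

end Base

section

variable {Y : Type} (a : Y) (v s : FreeGroup (Low a)) (u : FreeGroup (Fin 2))

open Base Pool.Agent.MP3f0e40.OS.Base in
theorem base [Finite Y] (hu : Comm u) (m : ℕ) (hv : v ∈ low a (m + 1)) (hs : s ∈ low a (m + 1)) (c : Y) (N : ℕ)
    (hN : s ^ N * v⁻¹ ∉ Subgroup.closure (FreeGroup.of '' {p : Low a | p.1 ≠ (c, m + 1)})) :
    Det (rows a v s u (m + 1)) := by
  classical
  set U : FreeGroup (LL Y m) := zc a c m (s ^ N * v⁻¹) with hUdef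
  have hU : U ∉ Subgroup.closure (FreeGroup.of '' {l : LL Y m | l ≠ Sum.inl (c, Fin.last m)}) := by
    intro h
    have h1 := back_mem a c m U h
    rw [hUdef, back_zc a c m _ (Subgroup.mul_mem _ (Subgroup.pow_mem _ hs _)
      (Subgroup.inv_mem _ hv))] at h1
    exact hN h1
  have hinj := psi_injective a c m U hU
  intro g hg hg1
  -- a word for `g`
  obtain ⟨w, hw⟩ : ∃ w : FreeGroup (Y × Fin (m + 1)),
      FreeGroup.lift (fun p : Y × Fin (m + 1) => gg a v s u p.1 (p.2 : ℕ)) w = g := by
    have h1 : rows a v s u (m + 1) ≤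
        (FreeGroup.lift (fun p : Y × Fin (m + 1) => gg a v s u p.1 (p.2 : ℕ))).range := by
      unfold rows
      rw [Subgroup.closure_le]
      rintro _ ⟨y, i, hi, rfl⟩
      exact ⟨FreeGroup.of (y, ⟨i, hi⟩), by simp⟩
    exact h1 hg
  have hw1 : w ≠ 1 := by
    rintro rfl
    rw [map_one] at hw
    exact hg1 hw.symm
  have hw2 : FreeGroup.map (Sum.inl : Y × Fin (m + 1) → LL Y m) w ≠ 1 := by
    intro h
    exact hw1 (FreeGroup.map_injective Sum.inl_injective (h.trans (map_one _).symm))
  obtain ⟨Q, hQ1, hQ2, θ, φ, h1, h2⟩ := bs_free (psi a c m U) hinj _ hw2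
  -- the values
  set x : Y → ℕ → Q := fun y i => (φ.symm)^[i] (θ (FreeGroup.of (Sum.inl (y, 0)))) with hx
  have hxs : ∀ y i, φ (x y (i + 1)) = x y i := by
    intro y i
    simp only [hx, Function.iterate_succ_apply']
    exact φ.apply_symm_apply _
  have hxj : ∀ (y : Y) (j : ℕ) (hj : j < m + 1),
      θ (FreeGroup.of (Sum.inl (y, ⟨j, hj⟩))) = x y j := by
    intro y j
    induction j with
    | zero => intro hj; rfl
    | succ j ih =>
      intro hj
      have h3 := h1 (FreeGroup.of (Sum.inl (y, (⟨j, by omega⟩ : Fin m).succ)))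
      rw [psi_succ] at h3
      have h4 := ih (by omega)
      have h5 : φ (x y (j + 1)) = φ (θ (FreeGroup.of (Sum.inl (y, ⟨j + 1, hj⟩)))) := by
        rw [hxs, ← h4]
        exact h3
      exact (φ.injective h5).symm
  have hz : ∀ z ∈ low a (m + 1), θ (zc a c m z) =
      φ (FreeGroup.lift (fun p : Low a => x p.1.1 p.1.2) z) := by
    intro z hz
    have h : Set.EqOn (θ.comp (zc a c m))
        ((φ : Q →* Q).comp (FreeGroup.lift (fun p : Low a => x p.1.1 p.1.2)))
        (FreeGroup.of '' {p : Low a | p.1.2 ≤ m + 1}) := by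
      rintro _ ⟨⟨⟨y, i⟩, hp⟩, hi, rfl⟩
      simp only [Set.mem_ofPred_eq] at hi
      simp only [MonoidHom.comp_apply, FreeGroup.lift_apply_of, MonoidHom.coe_coe]
      rcases i with _ | i
      · have hy : y ≠ a := fun h => hp (by rw [h])
        have h3 := h1 (FreeGroup.of (Sum.inl (y, 0)))
        rw [psi_zero a c m _ y hy] at h3
        rw [zc_zero a c m y hy, psi_zero a c m _ y hy, h3]
        rfl
      · rw [zc_succ a c m y i (by omega), hxj, hxs]
    exact MonoidHom.eqOn_closure h hz
  have ha : x a 0 * FreeGroup.lift (fun p : Low a => x p.1.1 p.1.2) v =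
      (FreeGroup.lift (fun p : Low a => x p.1.1 p.1.2) s) ^ N := by
    have h3 := h1 (FreeGroup.of (Sum.inl (a, 0)))
    rw [psi_a, hUdef, hz _ (Subgroup.mul_mem _ (Subgroup.pow_mem _ hs _)
      (Subgroup.inv_mem _ hv))] at h3
    have h4 := φ.injective h3
    rw [map_mul, map_pow, map_inv] at h4
    have h5 : x a 0 = θ (FreeGroup.of (Sum.inl (a, 0))) := rfl
    rw [h5, ← h4]
    group
  have hxi : ∀ y i j, x y (j + i) = (φ.symm)^[i] (x y j) := by
    intro y i j
    simp only [hx, ← Function.iterate_add_apply]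
    rw [Nat.add_comm]
  have hlev : ∀ i (z : FreeGroup (Low a)),
      FreeGroup.lift (fun p : Y × ℕ => x p.1 p.2) (lev i z) =
        (φ.symm)^[i] (FreeGroup.lift (fun p : Low a => x p.1.1 p.1.2) z) := by
    intro i
    induction i with
    | zero =>
      intro z
      have : (FreeGroup.lift (fun p : Y × ℕ => x p.1 p.2)).comp (lev (a := a) 0) =
          FreeGroup.lift (fun p : Low a => x p.1.1 p.1.2) := by
        ext p
        simp [lev]
      exact DFunLike.congr_fun this z
    | succ i ih =>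
      intro z
      rw [Function.iterate_succ_apply', ← ih]
      have : (FreeGroup.lift (fun p : Y × ℕ => x p.1 p.2)).comp (lev (a := a) (i + 1)) =
          (φ.symm : Q →* Q).comp
            ((FreeGroup.lift (fun p : Y × ℕ => x p.1 p.2)).comp (lev (a := a) i)) := by
        ext p
        simp only [lev, MonoidHom.comp_apply, FreeGroup.map.of, FreeGroup.lift_apply_of,
          MonoidHom.coe_coe]
        have h3 := hxs p.1.1 (p.1.2 + i)
        rw [← h3]
        exact (φ.symm_apply_apply _).symm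
      exact DFunLike.congr_fun this z
  have hrel : ∀ r ∈ Set.range (rel a v s u), FreeGroup.lift (fun p : Y × ℕ => x p.1 p.2) r = 1 := by
    rintro _ ⟨i, rfl⟩
    unfold rel
    rw [ev2_map', map_mul, FreeGroup.lift_apply_of, hlev, hlev]
    apply hu
    have h3 : x a i = (φ.symm)^[i] (x a 0) := by
      have := hxi a i 0
      rwa [Nat.zero_add] at this
    simp only [h3]
    have h4 : ∀ (i : ℕ) (p q : Q), (φ.symm)^[i] (p * q) = (φ.symm)^[i] p * (φ.symm)^[i] q :=
      fun i p q => iterate_map_mul φ.symm i p q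
    rw [← h4, ha, ← h4, ← h4, pow_mul_comm']
  set Θ : Gam a v s u →* Q := PresentedGroup.toGroup hrel with hΘ
  have hΘg : ∀ y i, Θ (gg a v s u y i) = x y i := by
    intro y i
    exact PresentedGroup.toGroup.of hrel
  refine ⟨Θ.ker, inferInstance, ?_, ?_⟩
  · exact Subgroup.finiteIndex_ker Θ
  · rw [MonoidHom.mem_ker]
    intro h3
    apply h2
    rw [← h3, ← hw]
    have h4 : Θ.comp (FreeGroup.lift (fun p : Y × Fin (m + 1) => gg a v s u p.1 (p.2 : ℕ))) =
        θ.comp (FreeGroup.map (Sum.inl : Y × Fin (m + 1) → LL Y m)) := by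
      ext p
      simp only [MonoidHom.comp_apply, FreeGroup.lift_apply_of, FreeGroup.map.of]
      rw [hΘg]
      exact (hxj p.1 p.2 p.2.2).symm
    exact (DFunLike.congr_fun h4 w).symm

end

end Pool.Agent.MP3f0e40.OU
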