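import Pool.Agent.Lib.MP_3f0e40_al.OU.Univ
import Pool.Agent.Lib.MP_3f0e40_al.Ext
import Pool.Agent.Lib.MP_3f0e40_al.Sep

set_option autoImplicit false

/-!
# Finite quotients of the HNN extension from finite quotients of the base group (module UC)
-/

namespace Pool.Agent.MP3f0e40.OU

open scoped commutatorElement
open Pool.Agent.MP3f0e40.OS (Low lev join shf low Det)

namespace CloseA

theorem exists_bound {Y : Type} (w : FreeGroup (Y × ℕ)) :
    ∃ l : ℕ, w ∈ Subgroup.closure (FreeGroup.of '' {p : Y × ℕ | p.2 ≤ l}) := by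
  have hmono : ∀ {l m : ℕ}, l ≤ m → Subgroup.closure (FreeGroup.of '' {p : Y × ℕ | p.2 ≤ l}) ≤
      Subgroup.closure (FreeGroup.of '' {p : Y × ℕ | p.2 ≤ m}) := fun h =>
    Subgroup.closure_mono (Set.image_mono fun p hp => le_trans hp h)
  refine FreeGroup.induction_on w ⟨0, Subgroup.one_mem _⟩ (fun p => ?_) (fun p hp => ?_)
    (fun x y hx hy => ?_)
  · exact ⟨p.2, Subgroup.subset_closure ⟨p, le_refl p.2, rfl⟩⟩
  · obtain ⟨l, hl⟩ := hp
    exact ⟨l, Subgroup.inv_mem _ hl⟩
  · obtain ⟨l, hl⟩ := hx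
    obtain ⟨m, hm⟩ := hy
    exact ⟨max l m, Subgroup.mul_mem _ (hmono (le_max_left l m) hl)
      (hmono (le_max_right l m) hm)⟩

theorem window_abs {Y Γ : Type} [Finite Y] [Group Γ] (g : Y → ℕ → Γ) (sh del : Γ →* Γ)
    (hsh : ∀ y i, sh (g y i) = g y (i + 1)) (hdel : ∀ y i, del (g y (i + 1)) = g y i)
    (hΓ : Group.ResiduallyFinite Γ) (R γ : FreeGroup (Y × ℕ))
    (hR : FreeGroup.lift (fun p : Y × ℕ => g p.1 p.2) R = 1)
    (hγ : FreeGroup.lift (fun p : Y × ℕ => g p.1 p.2) γ ≠ 1) :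
    ∃ (Q : Type) (_ : Group Q) (_ : Finite Q) (Φ : FreeGroup (Option Y) →* Q),
      Φ (shf R) = 1 ∧ Φ (shf γ) ≠ 1 := by
  classical
  obtain ⟨N, hN1, hN2, hN3⟩ := (rf_iff Γ).1 hΓ _ hγ
  set P := Γ ⧸ N with hP
  let θ : Γ →* P := QuotientGroup.mk' N
  have hθγ : θ (FreeGroup.lift (fun p : Y × ℕ => g p.1 p.2) γ) ≠ 1 := fun h =>
    hN3 ((QuotientGroup.eq_one_iff _).1 h)
  -- iterated shifts
  have hiter : ∀ (f : Γ →* Γ) (n : ℕ), ∃ F : Γ →* Γ, ∀ x, F x = f^[n] x := by
    intro f n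
    induction n with
    | zero => exact ⟨MonoidHom.id _, fun x => rfl⟩
    | succ n ih =>
      obtain ⟨F, hF⟩ := ih
      exact ⟨F.comp f, fun x => by rw [MonoidHom.comp_apply, hF, Function.iterate_succ_apply]⟩
  obtain ⟨θz, hθz0, hθz⟩ : ∃ θz : ℤ → Γ →* P, θz 0 = θ ∧
      ∀ n y i, θz (n + 1) (g y i) = θz n (g y (i + 1)) := by
    choose F hF using hiter
    refine ⟨fun n => match n with
      | Int.ofNat m => θ.comp (F sh m)
      | Int.negSucc m => θ.comp (F del (m + 1)), ?_, ?_⟩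
    · ext x
      change θ (F sh 0 x) = θ x
      rw [hF]
      rfl
    · intro n y i
      match n with
      | Int.ofNat m =>
        change θ (F sh (m + 1) (g y i)) = θ (F sh m (g y (i + 1)))
        rw [hF, hF, Function.iterate_succ_apply, hsh]
      | Int.negSucc 0 =>
        change θ (F sh 0 (g y i)) = θ (F del 1 (g y (i + 1)))
        rw [hF, hF, Function.iterate_one, hdel]
        rfl
      | Int.negSucc (m + 1) =>
        change θ (F del (m + 1) (g y i)) = θ (F del (m + 1 + 1) (g y (i + 1)))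
        rw [hF, hF, Function.iterate_succ_apply del (m + 1), hdel]
  -- a bound for the rows
  obtain ⟨l, hRl, hγl⟩ : ∃ l : ℕ,
      R ∈ Subgroup.closure (FreeGroup.of '' {p : Y × ℕ | p.2 ≤ l}) ∧
      γ ∈ Subgroup.closure (FreeGroup.of '' {p : Y × ℕ | p.2 ≤ l}) := by
    obtain ⟨l, hl⟩ := exists_bound R
    obtain ⟨m, hm⟩ := exists_bound γ
    exact ⟨max l m,
      Subgroup.closure_mono (Set.image_mono fun p hp => le_trans hp (le_max_left l m)) hl,
      Subgroup.closure_mono (Set.image_mono fun p hp => le_trans hp (le_max_right l m)) hm⟩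
  -- windows
  let W : ℤ → Y × Fin (l + 1) → P := fun n q => θz n (g q.1 q.2)
  have : Finite P := inferInstance
  let PP : Type := Set.range W → P
  have hfinE : Finite (Set.range W) := inferInstance
  have hfin : Finite PP := inferInstance
  let X : Y × ℕ → PP := fun p => if h : p.2 < l + 1 then fun E => E.1 (p.1, ⟨p.2, h⟩) else 1
  let E : ℤ → Set.range W := fun n => ⟨W n, n, rfl⟩
  have hX : ∀ n (p : Y × ℕ), p.2 ≤ l → X p (E n) = θz n (g p.1 p.2) := by
    intro n p hp
    have h : p.2 < l + 1 := Nat.lt_succ_of_le hp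
    change (if h : p.2 < l + 1 then fun E : Set.range W => E.1 (p.1, ⟨p.2, h⟩) else 1) (E n) = _
    rw [dif_pos h]
  let Xh : FreeGroup (Y × ℕ) →* PP := FreeGroup.lift X
  have hXh : ∀ n, ∀ w ∈ Subgroup.closure (FreeGroup.of '' {p : Y × ℕ | p.2 ≤ l}),
      Xh w (E n) = θz n (FreeGroup.lift (fun p : Y × ℕ => g p.1 p.2) w) := by
    intro n w hw
    have h1 : Set.EqOn ((Pi.evalMonoidHom (fun _ : Set.range W => P) (E n)).comp Xh)
        ((θz n).comp (FreeGroup.lift (fun p : Y × ℕ => g p.1 p.2)))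
        (FreeGroup.of '' {p : Y × ℕ | p.2 ≤ l}) := by
      rintro _ ⟨p, hp, rfl⟩
      change FreeGroup.lift X (FreeGroup.of p) (E n) =
        θz n (FreeGroup.lift (fun p : Y × ℕ => g p.1 p.2) (FreeGroup.of p))
      rw [FreeGroup.lift_apply_of, FreeGroup.lift_apply_of]
      exact hX n p hp
    exact MonoidHom.eqOn_closure h1 hw
  -- the two embeddings
  let c1 : FreeGroup (Y × Fin l) →* PP := FreeGroup.lift fun q => X (q.1, q.2 + 1)
  let c0 : FreeGroup (Y × Fin l) →* PP := FreeGroup.lift fun q => X (q.1, q.2)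
  have hc : ∀ n c, c1 c (E n) = c0 c (E (n + 1)) := by
    intro n c
    have h1 : (Pi.evalMonoidHom (fun _ : Set.range W => P) (E n)).comp c1 =
        (Pi.evalMonoidHom (fun _ : Set.range W => P) (E (n + 1))).comp c0 := by
      refine FreeGroup.ext_hom _ _ fun q => ?_
      change FreeGroup.lift (fun q : Y × Fin l => X (q.1, q.2 + 1)) (FreeGroup.of q) (E n) =
        FreeGroup.lift (fun q : Y × Fin l => X (q.1, q.2)) (FreeGroup.of q) (E (n + 1))
      rw [FreeGroup.lift_apply_of, FreeGroup.lift_apply_of,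
        hX n (q.1, (q.2 : ℕ) + 1) (Nat.succ_le_of_lt q.2.2),
        hX (n + 1) (q.1, (q.2 : ℕ)) (le_of_lt q.2.2), hθz]
    exact DFunLike.congr_fun h1 c
  have hEall : ∀ e : Set.range W, ∃ n, e = E n := by
    rintro ⟨_, n, rfl⟩
    exact ⟨n, rfl⟩
  have hc1 : ∀ c, c1 c = 1 ↔ c0 c = 1 := by
    intro c
    constructor
    · intro h
      funext e
      obtain ⟨n, rfl⟩ := hEall e
      have h1 := hc (n - 1) c
      rw [h, sub_add_cancel] at h1
      exact h1.symm
    · intro h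
      funext e
      obtain ⟨n, rfl⟩ := hEall e
      rw [hc n c, h]
      rfl
  let lam : PP →* Equiv.Perm PP := MulAction.toPermHom PP PP
  have hlam : ∀ x y : PP, lam x y = x * y := fun x y => rfl
  obtain ⟨τ, hτ, -⟩ := ext_equivariant (J := Empty) (lam.comp c1) (lam.comp c0) (by
    intro c x y
    rw [MonoidHom.comp_apply, MonoidHom.comp_apply, hlam, hlam, mul_eq_right, mul_eq_right]
    exact hc1 c) (fun j => j.elim) (fun j => j.elim) (fun j => j.elim) (fun j => j.elim)
  have hτ' : ∀ y i, i < l → lam (X (y, i + 1)) = τ⁻¹ * lam (X (y, i)) * τ := by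
    intro y i hi
    rw [eq_comm, mul_assoc, inv_mul_eq_iff_eq_mul, eq_comm]
    ext v
    have h1 := hτ (FreeGroup.of (y, ⟨i, hi⟩)) v
    change τ (lam (FreeGroup.lift (fun q : Y × Fin l => X (q.1, q.2 + 1))
      (FreeGroup.of (y, ⟨i, hi⟩))) v) = lam (FreeGroup.lift (fun q : Y × Fin l => X (q.1, q.2))
      (FreeGroup.of (y, ⟨i, hi⟩))) (τ v) at h1
    rw [FreeGroup.lift_apply_of, FreeGroup.lift_apply_of] at h1
    rw [Equiv.Perm.mul_apply, Equiv.Perm.mul_apply]
    exact congrFun h1 _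
  let Φ : FreeGroup (Option Y) →* Equiv.Perm PP :=
    FreeGroup.lift fun o => match o with
      | some y => lam (X (y, 0))
      | none => τ
  have hΦ : ∀ y i, i ≤ l → (τ ^ i)⁻¹ * lam (X (y, 0)) * τ ^ i = lam (X (y, i)) := by
    intro y i
    induction i with
    | zero =>
      intro _
      rw [pow_zero, inv_one, one_mul, mul_one]
    | succ i ih =>
      intro hi
      rw [hτ' y i hi, ← ih (Nat.le_of_succ_le hi), pow_succ]
      group
  have hshf : ∀ w ∈ Subgroup.closure (FreeGroup.of '' {p : Y × ℕ | p.2 ≤ l}),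
      Φ (shf w) = lam (Xh w) := by
    intro w hw
    have h1 : Set.EqOn (Φ.comp shf) (lam.comp Xh) (FreeGroup.of '' {p : Y × ℕ | p.2 ≤ l}) := by
      rintro _ ⟨p, hp, rfl⟩
      rw [MonoidHom.comp_apply, MonoidHom.comp_apply]
      change Φ (shf (FreeGroup.of p)) = lam (FreeGroup.lift X (FreeGroup.of p))
      rw [FreeGroup.lift_apply_of]
      unfold shf
      rw [FreeGroup.lift_apply_of, map_mul, map_mul, map_inv, map_pow]
      have h2 : Φ (FreeGroup.of none) = τ := FreeGroup.lift_apply_of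
      have h3 : Φ (FreeGroup.of (some p.1)) = lam (X (p.1, 0)) := FreeGroup.lift_apply_of
      rw [h2, h3]
      exact hΦ p.1 p.2 hp
    exact MonoidHom.eqOn_closure h1 hw
  refine ⟨Equiv.Perm PP, inferInstance, inferInstance, Φ, ?_, ?_⟩
  · rw [hshf R hRl]
    have h1 : Xh R = 1 := by
      funext e
      obtain ⟨n, rfl⟩ := hEall e
      rw [hXh n R hRl, hR, map_one]
      rfl
    rw [h1, map_one]
  · rw [hshf γ hγl]
    intro h
    have h1 : lam (Xh γ) 1 = (1 : Equiv.Perm PP) 1 := by rw [h]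
    rw [hlam, mul_one, Equiv.Perm.one_apply] at h1
    have h2 := hXh 0 γ hγl
    rw [h1, hθz0] at h2
    exact hθγ h2.symm

end CloseA

section

variable {Y : Type} (a : Y) (v s : FreeGroup (Low a)) (u : FreeGroup (Fin 2))

theorem window [Finite Y] (hu : Comm u) (h : Group.ResiduallyFinite (Gam a v s u))
    (γ : FreeGroup (Y × ℕ)) (hγ : (PresentedGroup.mk _ γ : Gam a v s u) ≠ 1) :
    ∃ (Q : Type) (_ : Group Q) (_ : Finite Q) (Φ : FreeGroup (Option Y) →* Q),
      Φ (relI a v s u) = 1 ∧ Φ (shf γ) ≠ 1 := by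
  obtain ⟨sh, hsh⟩ := exists_sh a v s u
  obtain ⟨del, hdel⟩ := exists_del a v s u hu
  have hmk : ∀ w, (PresentedGroup.mk (Set.range (rel a v s u)) w : Gam a v s u) =
      FreeGroup.lift (fun p : Y × ℕ => gg a v s u p.1 p.2) w := by
    intro w
    have h1 : PresentedGroup.mk (Set.range (rel a v s u)) =
        FreeGroup.lift (fun p : Y × ℕ => gg a v s u p.1 p.2) := by
      refine FreeGroup.ext_hom _ _ fun p => ?_
      rw [FreeGroup.lift_apply_of]
      rfl
    exact DFunLike.congr_fun h1 w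
  refine CloseA.window_abs (gg a v s u) sh del hsh hdel h (rel a v s u 0) γ ?_ ?_
  · rw [← hmk]
    exact PresentedGroup.one_of_mem ⟨0, rfl⟩
  · rw [← hmk]
    exact hγ

end

end Pool.Agent.MP3f0e40.OU
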