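import Pool.Agent.Lib.MP_3f0e40_al.OU.Defs

set_option autoImplicit false

/-!
# Closing the tower: residual finiteness of `I` from detection of the conjugates of the base group
-/

namespace Pool.Agent.MP3f0e40.OU

open scoped commutatorElement
open Pool.Agent.MP3f0e40.OS (Low lev join shf low Det)

section

variable {Y : Type} (a : Y) (v s : FreeGroup (Low a)) (u : FreeGroup (Fin 2))

/-- raise all letters by `j` rows -/
def cbR {Y : Type} (j : ℕ) : FreeGroup (Y × ℕ) →* FreeGroup (Y × ℕ) :=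
  FreeGroup.map fun p => (p.1, p.2 + j)

theorem cbR_lev (i : ℕ) (w : FreeGroup (Low a)) : cbR i (lev 0 w) = lev i w := by
  have h : (cbR i).comp (lev (a := a) 0) = lev i := by
    ext p
    simp [cbR, lev]
  exact DFunLike.congr_fun h w

theorem cb_ev2_map {G H : Type} [Group G] [Group H] (f : G →* H) (x z : G)
    (w : FreeGroup (Fin 2)) : f (ev2 x z w) = ev2 (f x) (f z) w := by
  have h : f.comp (ev2 x z) = ev2 (f x) (f z) := by
    apply FreeGroup.ext_hom
    intro i
    fin_cases i <;> simp [ev2]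
  exact DFunLike.congr_fun h w

theorem cbR_rel (i : ℕ) : cbR i (rel a v s u 0) = rel a v s u i := by
  unfold rel
  rw [cb_ev2_map, map_mul, cbR_lev, cbR_lev]
  simp [cbR]

/-- the letter `t` of `I` -/
def cbt : PresentedGroup ({relI a v s u} : Set (FreeGroup (Option Y))) := PresentedGroup.of none

/-- the words in the letters of the base group as elements of `I` -/
def cbkap : FreeGroup (Y × ℕ) →* PresentedGroup ({relI a v s u} : Set (FreeGroup (Option Y))) :=
  (PresentedGroup.mk _).comp shf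

theorem cbkap_of (y : Y) (i : ℕ) : cbkap a v s u (FreeGroup.of (y, i)) =
    (cbt a v s u ^ i)⁻¹ * PresentedGroup.of (some y) * cbt a v s u ^ i := by
  unfold cbkap shf
  rw [MonoidHom.comp_apply, FreeGroup.lift_apply_of]
  rw [map_mul, map_mul, map_inv, map_pow]
  rfl

theorem cbkap_R (j : ℕ) (γ : FreeGroup (Y × ℕ)) : cbkap a v s u (cbR j γ) =
    (cbt a v s u ^ j)⁻¹ * cbkap a v s u γ * cbt a v s u ^ j := by
  have h : (cbkap a v s u).comp (cbR j) =
      (MulAut.conj (cbt a v s u ^ j)⁻¹).toMonoidHom.comp (cbkap a v s u) := by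
    ext p
    obtain ⟨y, i⟩ := p
    have h1 : cbR j (FreeGroup.of (y, i)) = FreeGroup.of (y, i + j) := by simp [cbR]
    rw [MonoidHom.comp_apply, h1, MonoidHom.comp_apply, cbkap_of, cbkap_of]
    simp only [MulEquiv.toMonoidHom_eq_coe, MonoidHom.coe_coe, MulAut.conj_apply, inv_inv]
    rw [pow_add]
    group
  have h2 := DFunLike.congr_fun h γ
  rw [MonoidHom.comp_apply, MonoidHom.comp_apply] at h2
  simp only [MulEquiv.toMonoidHom_eq_coe, MonoidHom.coe_coe, MulAut.conj_apply, inv_inv] at h2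
  exact h2

theorem cbkap_rel (i : ℕ) : cbkap a v s u (rel a v s u i) = 1 := by
  rw [← cbR_rel, cbkap_R]
  have h : cbkap a v s u (rel a v s u 0) = 1 := mk_rel (relI a v s u)
  rw [h]
  group

/-- the base group maps to `I` -/
theorem cb_gam (γ : FreeGroup (Y × ℕ)) (h : (PresentedGroup.mk _ γ : Gam a v s u) = 1) :
    cbkap a v s u γ = 1 := by
  let f : Y × ℕ → PresentedGroup ({relI a v s u} : Set (FreeGroup (Option Y))) :=
    fun p => cbkap a v s u (FreeGroup.of p)
  have hf : FreeGroup.lift f = cbkap a v s u := by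
    ext p
    rw [FreeGroup.lift_apply_of]
  have hr : ∀ r ∈ Set.range (rel a v s u), FreeGroup.lift f r = 1 := by
    rintro r ⟨i, rfl⟩
    rw [hf]
    exact cbkap_rel a v s u i
  let F : Gam a v s u →* PresentedGroup ({relI a v s u} : Set (FreeGroup (Option Y))) :=
    PresentedGroup.toGroup hr
  have hF : F.comp (PresentedGroup.mk _) = cbkap a v s u := by
    apply FreeGroup.ext_hom
    intro p
    exact PresentedGroup.toGroup.of hr
  have h2 := DFunLike.congr_fun hF γ
  rw [MonoidHom.comp_apply, h, map_one] at h2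
  exact h2.symm

/-- conjugates by powers of `t` of elements of the base group -/
def cbS (x : PresentedGroup ({relI a v s u} : Set (FreeGroup (Option Y)))) : Prop :=
  ∃ (q : ℕ) (γ : FreeGroup (Y × ℕ)), x = cbt a v s u ^ q * cbkap a v s u γ * (cbt a v s u ^ q)⁻¹

variable {a v s u}

theorem cbS_up {q : ℕ} (j : ℕ) (γ : FreeGroup (Y × ℕ)) :
    cbt a v s u ^ q * cbkap a v s u γ * (cbt a v s u ^ q)⁻¹ =
      cbt a v s u ^ (q + j) * cbkap a v s u (cbR j γ) * (cbt a v s u ^ (q + j))⁻¹ := by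
  rw [cbkap_R, pow_add]
  group

theorem cbS_one : cbS a v s u 1 := ⟨0, 1, by simp⟩

theorem cbS_mul {x y : PresentedGroup ({relI a v s u} : Set (FreeGroup (Option Y)))}
    (hx : cbS a v s u x) (hy : cbS a v s u y) : cbS a v s u (x * y) := by
  obtain ⟨q, γ, rfl⟩ := hx
  obtain ⟨q', γ', rfl⟩ := hy
  refine ⟨q + q', cbR q' γ * cbR q γ', ?_⟩
  rw [cbS_up q' γ, cbS_up q γ', add_comm q' q, map_mul]
  group

theorem cbS_inv {x : PresentedGroup ({relI a v s u} : Set (FreeGroup (Option Y)))}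
    (hx : cbS a v s u x) : cbS a v s u x⁻¹ := by
  obtain ⟨q, γ, rfl⟩ := hx
  refine ⟨q, γ⁻¹, ?_⟩
  rw [map_inv]
  group

theorem cbS_conj {x : PresentedGroup ({relI a v s u} : Set (FreeGroup (Option Y)))}
    (hx : cbS a v s u x) (e : ℤ) : cbS a v s u (cbt a v s u ^ e * x * (cbt a v s u ^ e)⁻¹) := by
  obtain ⟨q, γ, rfl⟩ := hx
  obtain ⟨n, rfl | rfl⟩ := e.eq_nat_or_neg
  · refine ⟨n + q, γ, ?_⟩
    rw [zpow_natCast, pow_add]
    group
  · refine ⟨q, cbR n γ, ?_⟩
    rw [cbkap_R, zpow_neg, zpow_natCast]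
    have h : cbt a v s u ^ n * cbt a v s u ^ q = cbt a v s u ^ q * cbt a v s u ^ n := by
      rw [← pow_add, ← pow_add, add_comm]
    have h' : (cbt a v s u ^ n)⁻¹ * cbt a v s u ^ q = cbt a v s u ^ q * (cbt a v s u ^ n)⁻¹ := by
      rw [inv_mul_eq_iff_eq_mul, ← mul_assoc, h, mul_assoc, mul_inv_cancel, mul_one]
    have h2 : (cbt a v s u ^ q)⁻¹ * cbt a v s u ^ n = cbt a v s u ^ n * (cbt a v s u ^ q)⁻¹ := by
      rw [inv_mul_eq_iff_eq_mul, ← mul_assoc, ← h, mul_assoc, mul_inv_cancel, mul_one]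
    calc (cbt a v s u ^ n)⁻¹ * (cbt a v s u ^ q * cbkap a v s u γ * (cbt a v s u ^ q)⁻¹) *
          ((cbt a v s u ^ n)⁻¹)⁻¹
        = ((cbt a v s u ^ n)⁻¹ * cbt a v s u ^ q) * cbkap a v s u γ *
          ((cbt a v s u ^ q)⁻¹ * cbt a v s u ^ n) := by group
      _ = _ := by rw [h', h2]; group

/-- the normal form -/
theorem cb_form (g : PresentedGroup ({relI a v s u} : Set (FreeGroup (Option Y)))) :
    ∃ x, cbS a v s u x ∧ ∃ e : ℤ, g = x * cbt a v s u ^ e := by
  have hg : g ∈ Subgroup.closure (Set.range (PresentedGroup.of :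
      Option Y → PresentedGroup ({relI a v s u} : Set (FreeGroup (Option Y))))) := by
    rw [PresentedGroup.closure_range_of]
    exact Subgroup.mem_top g
  have hy : ∀ (y : Y) (e : ℤ), cbS a v s u (cbt a v s u ^ e * PresentedGroup.of (some y) *
      (cbt a v s u ^ e)⁻¹) := fun y e => cbS_conj ⟨0, FreeGroup.of (y, 0), by
        rw [cbkap_of]
        simp⟩ e
  induction hg using Subgroup.closure_induction_right with
  | one => exact ⟨1, cbS_one, 0, by simp⟩
  | mul_right x hx y hy' ih =>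
    obtain ⟨z, hz, e, rfl⟩ := ih
    obtain ⟨o, rfl⟩ := hy'
    rcases o with _ | y
    · refine ⟨z, hz, e + 1, ?_⟩
      rw [zpow_add, zpow_one, mul_assoc]
      rfl
    · refine ⟨_, cbS_mul hz (hy y e), e, ?_⟩
      group
  | mul_inv_cancel x hx y hy' ih =>
    obtain ⟨z, hz, e, rfl⟩ := ih
    obtain ⟨o, rfl⟩ := hy'
    rcases o with _ | y
    · refine ⟨z, hz, e - 1, ?_⟩
      rw [zpow_sub, zpow_one, mul_assoc]
      rfl
    · refine ⟨_, cbS_mul hz (cbS_inv (hy y e)), e, ?_⟩
      group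

variable (a v s u)

/-- exponent of `t` -/
def cbf (o : Option Y) : Multiplicative ℤ :=
  match o with
  | none => Multiplicative.ofAdd 1
  | some _ => 1

theorem cbf_rel (hu : Comm u) : FreeGroup.lift cbf (relI a v s u) = 1 := by
  unfold relI rel
  rw [cb_ev2_map, cb_ev2_map]
  exact hu _ _ _ (mul_comm _ _)

theorem cb_chi_kap (hu : Comm u) (γ : FreeGroup (Y × ℕ)) :
    toG (relI a v s u) cbf (cbf_rel a v s u hu) (cbkap a v s u γ) = 1 := by
  have h : (toG (relI a v s u) cbf (cbf_rel a v s u hu)).comp (cbkap a v s u) = 1 := by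
    apply FreeGroup.ext_hom
    rintro ⟨y, i⟩
    rw [MonoidHom.comp_apply, cbkap_of, map_mul, map_mul, map_inv, toG_of]
    simp [cbf]
  exact DFunLike.congr_fun h γ

theorem close (hu : Comm u)
    (h : ∀ γ : FreeGroup (Y × ℕ), (PresentedGroup.mk _ γ : Gam a v s u) ≠ 1 →
      ∃ (Q : Type) (_ : Group Q) (_ : Finite Q) (Φ : FreeGroup (Option Y) →* Q),
        Φ (relI a v s u) = 1 ∧ Φ (shf γ) ≠ 1) :
    Group.ResiduallyFinite (PresentedGroup ({relI a v s u} : Set (FreeGroup (Option Y)))) := by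
  rw [rf_iff]
  intro g hg
  obtain ⟨x, ⟨q, γ, rfl⟩, e, rfl⟩ := cb_form g
  by_cases he : e = 0
  · subst he
    have hγ : cbkap a v s u γ ≠ 1 := by
      intro h1
      apply hg
      rw [h1]
      simp
    obtain ⟨Q, _, _, Φ, h1, h2⟩ := h γ (fun h3 => hγ (cb_gam a v s u γ h3))
    have hΦ : FreeGroup.lift (fun o => Φ (FreeGroup.of o)) = Φ := by
      ext o
      rw [FreeGroup.lift_apply_of]
    let Φ' := toG (relI a v s u) (fun o => Φ (FreeGroup.of o)) (by rw [hΦ]; exact h1)
    have h3 : Φ' (cbkap a v s u γ) = Φ (shf γ) := by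
      show Φ' (PresentedGroup.mk _ (shf γ)) = _
      rw [toG_mk, hΦ]
    refine ⟨Φ'.ker, inferInstance, Subgroup.finiteIndex_ker Φ', fun h4 => h2 ?_⟩
    rw [MonoidHom.mem_ker, zpow_zero, mul_one, map_mul, map_mul, map_inv, h3] at h4
    have h5 : Φ' (cbt a v s u ^ q) * Φ (shf γ) = Φ' (cbt a v s u ^ q) := by
      rwa [mul_inv_eq_one] at h4
    exact mul_eq_left.mp h5
  · let χ := toG (relI a v s u) cbf (cbf_rel a v s u hu)
    let π : Multiplicative ℤ →* Multiplicative (ZMod (e.natAbs + 1)) :=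
      AddMonoidHom.toMultiplicative (Int.castAddHom (ZMod (e.natAbs + 1)))
    have : Finite (Multiplicative (ZMod (e.natAbs + 1))) :=
      inferInstanceAs (Finite (ZMod (e.natAbs + 1)))
    refine ⟨(π.comp χ).ker, inferInstance, Subgroup.finiteIndex_ker (π.comp χ), fun h4 => he ?_⟩
    have hχt : χ (cbt a v s u) = Multiplicative.ofAdd 1 := toG_of _ _ _ none
    have h5 : χ (cbt a v s u ^ q * cbkap a v s u γ * (cbt a v s u ^ q)⁻¹ * cbt a v s u ^ e) =
        Multiplicative.ofAdd e := by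
      rw [map_mul, map_mul, map_mul, map_inv, cb_chi_kap a v s u hu, mul_one, mul_inv_cancel, one_mul,
        map_zpow, hχt, ← ofAdd_zsmul]
      simp
    rw [MonoidHom.mem_ker, MonoidHom.comp_apply, h5] at h4
    have h6 : ((e : ℤ) : ZMod (e.natAbs + 1)) = 0 := h4
    rw [ZMod.intCast_zmod_eq_zero_iff_dvd] at h6
    by_contra h7
    have h8 := Int.le_of_dvd (Int.natAbs_pos.mpr h7 |> fun h => by exact_mod_cast h)
      ((Int.dvd_natAbs).mpr h6)
    push_cast at h8
    omega

end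

end Pool.Agent.MP3f0e40.OU
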