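import Pool.Agent.Lib.MP_3f0e40_al.OS.Defs

set_option autoImplicit false

/-!
# Definitions for the substitution theorem (project OU)

As in project OS, with the relator `⁅r, s⁆` replaced by the value at `(r, s)` of a commutator
word `u` in two letters.
-/

namespace Pool.Agent.MP3f0e40.OU

open scoped commutatorElement
open Pool.Agent.MP3f0e40.OS (Low lev join shf low Det)

/-- the value of a word in two letters -/
def ev2 {G : Type} [Group G] (x z : G) : FreeGroup (Fin 2) →* G := FreeGroup.lift ![x, z]

/-- `u` is killed by all homomorphisms to commutative groups -/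
def Comm (u : FreeGroup (Fin 2)) : Prop :=
  ∀ (G : Type) [Group G] (x z : G), x * z = z * x → ev2 x z u = 1

/-- the group with two generators and one relator -/
abbrev Kgp (u : FreeGroup (Fin 2)) : Type := PresentedGroup ({u} : Set (FreeGroup (Fin 2)))

section

variable {Y : Type} (a : Y) (v s : FreeGroup (Low a)) (u : FreeGroup (Fin 2))

/-- the `i`-th relator of the base group -/
def rel (i : ℕ) : FreeGroup (Y × ℕ) := ev2 (FreeGroup.of (a, i) * lev i v) (lev i s) u

/-- the base group -/
abbrev Gam : Type := PresentedGroup (Set.range (rel a v s u))

/-- the generators of the base group -/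
def gg (y : Y) (i : ℕ) : Gam a v s u := PresentedGroup.of (y, i)

/-- the element `r` of row `0` of the base group -/
def rr : Gam a v s u := PresentedGroup.mk _ (FreeGroup.of (a, 0) * lev 0 v)

/-- the element `s` of row `0` of the base group -/
def ss : Gam a v s u := PresentedGroup.mk _ (lev 0 s)

/-- the subgroup generated by the rows `0, ..., n - 1` -/
def rows (n : ℕ) : Subgroup (Gam a v s u) :=
  Subgroup.closure {x | ∃ y i, i < n ∧ x = gg a v s u y i}

/-- the relator of the group `I` -/
def relI : FreeGroup (Option Y) := shf (rel a v s u 0)

end

end Pool.Agent.MP3f0e40.OU
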