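import Pool.Agent.Lib.MP_3f0e40_al.OU.Univ
import Pool.Agent.Lib.MP_3f0e40_al.OS.Pot

set_option autoImplicit false

/-!
# The group with relator `u` embeds in the base group (module UE of project OU)

The second generator of `Kgp u` has infinite order, and so has the value of `s` in the
unitriangular group of `exists_potent`; the amalgam of these two groups receives a homomorphism
from the base group.
-/

namespace Pool.Agent.MP3f0e40.OU

open scoped commutatorElement
open Pool.Agent.MP3f0e40.OS (Low lev join shf low Det)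

namespace EmbedA

/-- the two groups of the amalgam -/
def GG (U K : Type) : Bool → Type
  | true => U
  | false => K

instance instGG (U K : Type) [Group U] [Group K] : ∀ b, Group (GG U K b)
  | true => inferInstanceAs (Group U)
  | false => inferInstanceAs (Group K)

/-- the two maps of the amalgam -/
def phi {U K : Type} [Group U] [Group K] (x : U) (y : K) : ∀ b, Multiplicative ℤ →* GG U K b
  | true => zpowersHom U x
  | false => zpowersHom K y

theorem zpowersHom_injective {U : Type} [Group U] (x : U) (hx : ∀ k : ℤ, x ^ k = 1 → k = 0) :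
    Function.Injective (zpowersHom U x) := by
  rw [injective_iff_map_eq_one]
  intro k hk
  have h := hx (Multiplicative.toAdd k) hk
  exact Multiplicative.toAdd.injective h

/-- the amalgam of two groups along infinite cyclic subgroups -/
theorem exists_amalgam {U K : Type} [Group U] [Group K] (x : U) (y : K)
    (hx : ∀ k : ℤ, x ^ k = 1 → k = 0) (hy : ∀ k : ℤ, y ^ k = 1 → k = 0) :
    ∃ (Q : Type) (_ : Group Q) (i : U →* Q) (j : K →* Q), i x = j y ∧ Function.Injective j := by
  have hφ : ∀ b, Function.Injective (phi x y b) := by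
    rintro (_ | _)
    · exact zpowersHom_injective y hy
    · exact zpowersHom_injective x hx
  refine ⟨Monoid.PushoutI (phi x y), inferInstance,
    (Monoid.PushoutI.of (φ := phi x y) true : GG U K true →* Monoid.PushoutI (phi x y)),
    (Monoid.PushoutI.of (φ := phi x y) false : GG U K false →* Monoid.PushoutI (phi x y)), ?_,
    Monoid.PushoutI.of_injective hφ false⟩
  have h1 := Monoid.PushoutI.of_apply_eq_base (phi x y) true (Multiplicative.ofAdd 1)
  have h2 := Monoid.PushoutI.of_apply_eq_base (phi x y) false (Multiplicative.ofAdd 1)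
  have e1 : phi x y true (Multiplicative.ofAdd 1) = x := zpow_one x
  have e2 : phi x y false (Multiplicative.ofAdd 1) = y := zpow_one y
  rw [e1] at h1
  rw [e2] at h2
  exact h1.trans h2.symm

theorem zpow_eq_one_of_potent {U : Type} [Group U] {x : U} (hx : Potent x) (k : ℤ)
    (hk : x ^ k = 1) : k = 0 := by
  obtain ⟨j, hj⟩ := hx 1
  have h0 : j = 0 := by
    refine Int.eq_zero_of_abs_lt_dvd (m := (j.natAbs + 1 : ℕ)) ?_ ?_
    · obtain ⟨N, -, -, hN⟩ := hj (j.natAbs + 1) (Nat.succ_pos _)
      have := hN 0 (by simp)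
      rw [zero_sub] at this
      exact (dvd_neg).1 this
    · rw [Nat.cast_add, Nat.cast_one, Int.natCast_natAbs]
      exact lt_add_one _
  subst h0
  refine Int.eq_zero_of_abs_lt_dvd (m := (k.natAbs + 1 : ℕ)) ?_ ?_
  · obtain ⟨N, -, -, hN⟩ := hj (k.natAbs + 1) (Nat.succ_pos _)
    have := hN k (by rw [zpow_neg, hk]; simp)
    rwa [sub_zero] at this
  · rw [Nat.cast_add, Nat.cast_one, Int.natCast_natAbs]
    exact lt_add_one _

theorem zpow_of_one (u : FreeGroup (Fin 2)) (hu : Comm u) (k : ℤ)
    (hk : (PresentedGroup.of 1 : Kgp u) ^ k = 1) : k = 0 := by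
  have hr : ∀ r ∈ ({u} : Set (FreeGroup (Fin 2))),
      FreeGroup.lift ![(1 : Multiplicative ℤ), Multiplicative.ofAdd 1] r = 1 := by
    intro r hr
    rw [Set.mem_singleton_iff.1 hr]
    exact hu _ _ _ (mul_comm _ _)
  obtain ⟨f, hf⟩ : ∃ f : Kgp u →* Multiplicative ℤ,
      f (PresentedGroup.of 1) = Multiplicative.ofAdd 1 :=
    ⟨PresentedGroup.toGroup hr, PresentedGroup.toGroup.of hr⟩
  have h2 := congrArg f hk
  rw [map_zpow, map_one, hf, ← ofAdd_zsmul] at h2
  have h3 : k • (1 : ℤ) = 0 := Multiplicative.ofAdd.injective h2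
  simpa using h3

end EmbedA

open EmbedA

section

variable {Y : Type} (a : Y) (v s : FreeGroup (Low a)) (u : FreeGroup (Fin 2))

theorem kap_injective (hu : Comm u) (hs1 : s ≠ 1) (κ : Kgp u →* Gam a v s u)
    (h0 : κ (PresentedGroup.of 0) = rr a v s u) (h1 : κ (PresentedGroup.of 1) = ss a v s u) :
    Function.Injective κ := by
  classical
  obtain ⟨U, _, ρ, hcen, hpot⟩ := Pool.Agent.MP3f0e40.OS.exists_potent s hs1
  obtain ⟨Q, _, i, j, hij, hj⟩ := exists_amalgam (ρ s) (PresentedGroup.of 1 : Kgp u)
    (zpow_eq_one_of_potent hpot) (zpow_of_one u hu)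
  obtain ⟨F, hF⟩ := exists_hom_of_central a v s u hu hcen
    (fun p => ρ (FreeGroup.of (⟨(p.1, p.2 + 1), fun h => Nat.succ_ne_zero _ (Prod.ext_iff.1 h).2⟩ :
      Low a)))
  let τ : Y → Q := fun y => if h : y = a then 1 else
    i (ρ (FreeGroup.of (⟨(y, 0), fun e => h (Prod.ext_iff.1 e).1⟩ : Low a)))
  have hJ : FreeGroup.lift (join (fun y n => (i.comp F) (gg a v s u y n)) τ) = i.comp ρ := by
    refine FreeGroup.ext_hom _ _ fun p => ?_
    rw [FreeGroup.lift_apply_of]
    obtain ⟨⟨y, n⟩, hp⟩ := p
    cases n with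
    | zero =>
      have hy : y ≠ a := fun e => hp (by rw [e])
      change τ y = _
      simp only [τ, dif_neg hy]
      rfl
    | succ n =>
      change i (F (gg a v s u y n)) = _
      rw [hF]
      rfl
  obtain ⟨Φ, hΦ1, hΦ2, hΦ3⟩ := up a v s u (i.comp F) τ j (by rw [hJ, ← hij]; rfl)
  have hΦs : Φ (ss a v s u) = j (PresentedGroup.of 1) := by
    rw [ss_eq]
    have h2 : Φ.comp (FreeGroup.lift (fun p : Low a => gg a v s u p.1.1 p.1.2)) = i.comp ρ := by
      rw [← hJ]
      refine FreeGroup.ext_hom _ _ fun p => ?_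
      rw [MonoidHom.comp_apply, FreeGroup.lift_apply_of, FreeGroup.lift_apply_of]
      obtain ⟨⟨y, n⟩, hp⟩ := p
      cases n with
      | zero =>
        have hy : y ≠ a := fun e => hp (by rw [e])
        exact hΦ2 y hy
      | succ n => exact hΦ1 y n
    have h3 := DFunLike.congr_fun h2 s
    rw [MonoidHom.comp_apply, MonoidHom.comp_apply, hij] at h3
    exact h3
  have hcomp : Φ.comp κ = j := by
    refine PresentedGroup.ext fun x => ?_
    rw [MonoidHom.comp_apply]
    fin_cases x
    · change Φ (κ (PresentedGroup.of 0)) = _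
      rw [h0]
      exact hΦ3
    · change Φ (κ (PresentedGroup.of 1)) = _
      rw [h1]
      exact hΦs
  intro x y hxy
  apply hj
  rw [← hcomp, MonoidHom.comp_apply, MonoidHom.comp_apply, hxy]

end

end Pool.Agent.MP3f0e40.OU
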