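import Pool.Agent.Lib.MP_3f0e40_al.OU.Univ

set_option autoImplicit false

/-!
# The base group embeds in `I`
-/

namespace Pool.Agent.MP3f0e40.OU

open scoped commutatorElement
open Pool.Agent.MP3f0e40.OS (Low lev join shf low Det)

section

variable {Y : Type} (a : Y) (v s : FreeGroup (Low a)) (u : FreeGroup (Fin 2))

/-- powers of `sh` and of `del` -/
def gbT {M : Type} [Monoid M] (sh del : M) : ℤ → M
  | Int.ofNat n => sh ^ n
  | Int.negSucc m => del ^ (m + 1)

theorem gbT_succ {M : Type} [Monoid M] (sh del : M) (h : del * sh = 1) (n : ℤ) :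
    gbT sh del (n + 1) = gbT sh del n * sh := by
  cases n with
  | ofNat n => exact pow_succ sh n
  | negSucc m =>
    cases m with
    | zero =>
      have e : (Int.negSucc 0 + 1 : ℤ) = Int.ofNat 0 := rfl
      rw [e]
      change sh ^ 0 = del ^ (0 + 1) * sh
      rw [pow_zero, zero_add, pow_one, h]
    | succ m =>
      have e : (Int.negSucc (m + 1) + 1 : ℤ) = Int.negSucc m := rfl
      rw [e]
      change del ^ (m + 1) = del ^ (m + 1 + 1) * sh
      rw [pow_succ del (m + 1), mul_assoc, h, mul_one]

theorem gbT_add {M : Type} [Monoid M] (sh del : M) (h : del * sh = 1) (n : ℤ) (i : ℕ) :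
    gbT sh del (n + i) = gbT sh del n * sh ^ i := by
  induction i with
  | zero => simp
  | succ i ih =>
    rw [Nat.cast_succ, ← add_assoc, gbT_succ sh del h, ih, pow_succ, mul_assoc]

/-- the action of a group with endomorphisms on `ℤ × G` -/
def gbA {G : Type} [Group G] (θ : ℤ → Monoid.End G) : G →* Equiv.Perm (ℤ × G) where
  toFun g :=
    { toFun := fun p => (p.1, θ p.1 g * p.2)
      invFun := fun p => (p.1, (θ p.1 g)⁻¹ * p.2)
      left_inv := fun p => by simp
      right_inv := fun p => by simp }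
  map_one' := by
    ext p
    · rfl
    · simp
  map_mul' g g' := by
    ext p
    · rfl
    · simp [mul_assoc]

/-- the shift of `ℤ × G` -/
def gbS (G : Type) : Equiv.Perm (ℤ × G) where
  toFun := fun p => (p.1 + 1, p.2)
  invFun := fun p => (p.1 - 1, p.2)
  left_inv := fun p => by simp
  right_inv := fun p => by simp

theorem gbS_pow (G : Type) (i : ℕ) (p : ℤ × G) : (gbS G ^ i) p = (p.1 + i, p.2) := by
  induction i generalizing p with
  | zero => simp
  | succ i ih =>
    rw [pow_succ, Equiv.Perm.mul_apply, ih]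
    change ((p.1 + 1 + i, p.2) : ℤ × G) = (p.1 + ((i + 1 : ℕ) : ℤ), p.2)
    rw [Nat.cast_succ]
    congr 1
    ring

theorem gam_embeds (hu : Comm u) (γ : FreeGroup (Y × ℕ))
    (h : (PresentedGroup.mk _ (shf γ) :
      PresentedGroup ({relI a v s u} : Set (FreeGroup (Option Y)))) = 1) :
    (PresentedGroup.mk _ γ : Gam a v s u) = 1 := by
  have e1 : ∃ sh : Monoid.End (Gam a v s u),
      ∀ y i, sh (gg a v s u y i) = gg a v s u y (i + 1) := exists_sh a v s u
  have e2 : ∃ del : Monoid.End (Gam a v s u),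
      ∀ y i, del (gg a v s u y (i + 1)) = gg a v s u y i := exists_del a v s u hu
  obtain ⟨sh, hsh⟩ := e1
  obtain ⟨del, hdel⟩ := e2
  have hds : del * sh = 1 := by
    apply PresentedGroup.ext
    rintro ⟨y, i⟩
    change del (sh (gg a v s u y i)) = gg a v s u y i
    rw [hsh, hdel]
  have hshi : ∀ (y : Y) (i : ℕ), (sh ^ i) (gg a v s u y 0) = gg a v s u y i := by
    intro y i
    induction i with
    | zero => rfl
    | succ i ih =>
      rw [pow_succ']
      change sh ((sh ^ i) (gg a v s u y 0)) = _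
      rw [ih, hsh]
  have hθ : ∀ (n : ℤ) (y : Y) (i : ℕ), gbT sh del (n + i) (gg a v s u y 0) =
      gbT sh del n (gg a v s u y i) := by
    intro n y i
    rw [gbT_add sh del hds, ← hshi y i]
    rfl
  let f : Option Y → Equiv.Perm (ℤ × Gam a v s u) := fun o => match o with
    | none => gbS _
    | some y => gbA (gbT sh del) (gg a v s u y 0)
  have key : (FreeGroup.lift f).comp shf = (gbA (gbT sh del)).comp (PresentedGroup.mk _) := by
    apply FreeGroup.ext_hom
    rintro ⟨y, i⟩
    rw [MonoidHom.comp_apply, MonoidHom.comp_apply, shf, FreeGroup.lift_apply_of]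
    rw [map_mul, map_mul, map_inv, map_pow, FreeGroup.lift_apply_of, FreeGroup.lift_apply_of]
    rw [mul_assoc, inv_mul_eq_iff_eq_mul]
    apply Equiv.ext
    intro p
    rw [Equiv.Perm.mul_apply, Equiv.Perm.mul_apply]
    change gbA (gbT sh del) (gg a v s u y 0) ((gbS _ ^ i) p) =
      (gbS _ ^ i) (gbA (gbT sh del) (gg a v s u y i) p)
    rw [gbS_pow, gbS_pow]
    change ((p.1 + i, gbT sh del (p.1 + i) (gg a v s u y 0) * p.2) : ℤ × Gam a v s u) =
      (p.1 + i, gbT sh del p.1 (gg a v s u y i) * p.2)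
    rw [hθ]
  have key2 : ∀ w, FreeGroup.lift f (shf w) = gbA (gbT sh del) (PresentedGroup.mk _ w) :=
    fun w => DFunLike.congr_fun key w
  have hr : ∀ r ∈ ({relI a v s u} : Set (FreeGroup (Option Y))), FreeGroup.lift f r = 1 := by
    intro r hr
    rw [Set.mem_singleton_iff] at hr
    rw [hr, relI, key2]
    have h0 : (PresentedGroup.mk (Set.range (rel a v s u)) (rel a v s u 0)) = 1 :=
      PresentedGroup.one_of_mem ⟨0, rfl⟩
    rw [h0, map_one]
  let F : PresentedGroup ({relI a v s u} : Set (FreeGroup (Option Y))) →*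
      Equiv.Perm (ℤ × Gam a v s u) := PresentedGroup.toGroup hr
  have hF : F.comp (PresentedGroup.mk _) = FreeGroup.lift f := by
    apply FreeGroup.ext_hom
    intro p
    rw [FreeGroup.lift_apply_of]
    exact PresentedGroup.toGroup.of hr
  have h1 : FreeGroup.lift f (shf γ) = 1 := by
    rw [← hF, MonoidHom.comp_apply, h, map_one]
  rw [key2] at h1
  have h2 := congrArg (fun e : Equiv.Perm (ℤ × Gam a v s u) => (e (0, 1)).2) h1
  change (PresentedGroup.mk _ γ : Gam a v s u) * 1 = 1 at h2
  rw [mul_one] at h2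
  exact h2

end

end Pool.Agent.MP3f0e40.OU
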