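import Pool.Agent.Lib.MP_3f0e40_al.OS.Path
import Pool.Agent.Lib.MP_3f0e40_al.OS.Pot
import Pool.Agent.Lib.MP_3f0e40_al.OU.Defs

set_option autoImplicit false

/-!
# Separation in an amalgam along a cyclic subgroup

The group `I` is generated by a group `G` and a group `K` with an element `s` of `G` identified
with an element `σ` of `K`. No normal form theorem is used.
-/

namespace Pool.Agent.MP3f0e40.OU

open Pool.Agent.MP3f0e40.OS (Low lev join shf low Det exists_common_nat det_of_hom potent_sep')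

section Path2

variable {G K I : Type} [Group G] [Group K] [Group I]

/-- the value of the word `g 0 * k 0 * g 1 * ... * k (n - 1) * g n` -/
def aval (ι : G →* I) (κ : K →* I) (g : ℕ → G) (k : ℕ → K) : ℕ → I
  | 0 => ι (g 0)
  | n + 1 => aval ι κ g k n * κ (k n) * ι (g (n + 1))

/-- reduced words -/
def ARed (s : G) (σ : K) (g : ℕ → G) (k : ℕ → K) (n : ℕ) : Prop :=
  (∀ i < n, ∀ j : ℤ, k i ≠ σ ^ j) ∧ ∀ i, i + 1 < n → ∀ j : ℤ, g (i + 1) ≠ s ^ j

theorem aval_congr (ι : G →* I) (κ : K →* I) {g g' : ℕ → G} {k k' : ℕ → K} (n : ℕ)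
    (hg : ∀ i ≤ n, g i = g' i) (hk : ∀ i < n, k i = k' i) :
    aval ι κ g k n = aval ι κ g' k' n := by
  induction n with
  | zero => simp [aval, hg 0 le_rfl]
  | succ n ih =>
    rw [aval, aval, ih (fun i hi => hg i (by omega)) (fun i hi => hk i (by omega)),
      hg (n + 1) le_rfl, hk n (by omega)]

/-- the elements with a reduced form -/
def AHas (ι : G →* I) (κ : K →* I) (H : Subgroup G) (s : G) (σ : K) (x : I) : Prop :=
  ∃ n g k, (∀ i, g i ∈ H) ∧ ARed s σ g k n ∧ aval ι κ g k n = x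

theorem ared_mono {s : G} {σ : K} {g : ℕ → G} {k : ℕ → K} {n m : ℕ} (h : ARed s σ g k n)
    (hm : m ≤ n) : ARed s σ g k m :=
  ⟨fun i hi => h.1 i (by omega), fun i hi => h.2 i (by omega)⟩

theorem ahas_mul_base (ι : G →* I) (κ : K →* I) (H : Subgroup G) (s : G) (σ : K) (x : I) (y : G)
    (hy : y ∈ H) (h : AHas ι κ H s σ x) : AHas ι κ H s σ (x * ι y) := by
  obtain ⟨n, g, k, hg, hr, rfl⟩ := h
  refine ⟨n, Function.update g n (g n * y), k, fun i => ?_, ⟨hr.1, fun i hi => ?_⟩, ?_⟩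
  · by_cases hi : i = n
    · subst hi
      rw [Function.update_self]
      exact H.mul_mem (hg i) hy
    · rw [Function.update_of_ne hi]
      exact hg i
  · rw [Function.update_of_ne (by omega)]
    exact hr.2 i hi
  · cases n with
    | zero => simp [aval]
    | succ n =>
      rw [aval, aval, Function.update_self, map_mul]
      simp only [mul_assoc]
      congr 1
      exact aval_congr ι κ n (fun i hi => by rw [Function.update_of_ne (by omega)])
        (fun _ _ => rfl)

theorem ahas_mul_kap (ι : G →* I) (κ : K →* I) (H : Subgroup G) (s : G) (hs : s ∈ H) (σ : K)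
    (hrel : ι s = κ σ) (x : I) (y : K) (h : AHas ι κ H s σ x) : AHas ι κ H s σ (x * κ y) := by
  have hpow : ∀ j : ℤ, κ (σ ^ j) = ι (s ^ j) := fun j => by rw [map_zpow, map_zpow, hrel]
  by_cases hy : ∃ j : ℤ, y = σ ^ j
  · obtain ⟨j, rfl⟩ := hy
    rw [hpow]
    exact ahas_mul_base ι κ H s σ x (s ^ j) (H.zpow_mem hs j) h
  obtain ⟨n, g, k, hg, hr, rfl⟩ := h
  have happ : (∀ m, n = m + 1 → ∀ j : ℤ, g (m + 1) ≠ s ^ j) →
      AHas ι κ H s σ (aval ι κ g k n * κ y) := by
    intro hm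
    refine ⟨n + 1, Function.update g (n + 1) 1, Function.update k n y, fun i => ?_,
      ⟨fun i hi => ?_, fun i hi => ?_⟩, ?_⟩
    · by_cases hi : i = n + 1
      · subst hi
        rw [Function.update_self]
        exact H.one_mem
      · rw [Function.update_of_ne hi]
        exact hg i
    · by_cases hin : i = n
      · subst hin
        rw [Function.update_self]
        exact fun j hj => hy ⟨j, hj⟩
      · rw [Function.update_of_ne hin]
        exact hr.1 i (by omega)
    · rw [Function.update_of_ne (by omega)]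
      rcases Nat.lt_or_ge (i + 1) n with h1 | h1
      · exact hr.2 i h1
      · exact hm i (by omega)
    · rw [aval, Function.update_self, Function.update_self, map_one, mul_one]
      congr 1
      exact aval_congr ι κ n (fun i hi => by rw [Function.update_of_ne (by omega)])
        (fun i hi => by rw [Function.update_of_ne (by omega)])
  cases n with
  | zero => exact happ (fun m hm => by omega)
  | succ m =>
    by_cases h1 : ∃ j : ℤ, g (m + 1) = s ^ j
    · obtain ⟨j, hj⟩ := h1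
      have h2 : aval ι κ g k (m + 1) * κ y = aval ι κ g k m * κ (k m * σ ^ j * y) := by
        rw [aval, hj, ← hpow, map_mul, map_mul]
        simp only [mul_assoc]
      by_cases h3 : ∃ j' : ℤ, k m * σ ^ j * y = σ ^ j'
      · obtain ⟨j', hj'⟩ := h3
        rw [h2, hj', hpow]
        exact ahas_mul_base ι κ H s σ _ (s ^ j') (H.zpow_mem hs j')
          ⟨m, g, k, hg, ared_mono hr (by omega), rfl⟩
      · refine ⟨m + 1, Function.update g (m + 1) 1, Function.update k m (k m * σ ^ j * y),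
          fun i => ?_, ⟨fun i hi => ?_, fun i hi => ?_⟩, ?_⟩
        · by_cases hi : i = m + 1
          · subst hi
            rw [Function.update_self]
            exact H.one_mem
          · rw [Function.update_of_ne hi]
            exact hg i
        · by_cases hin : i = m
          · subst hin
            rw [Function.update_self]
            exact fun j hj => h3 ⟨j, hj⟩
          · rw [Function.update_of_ne hin]
            exact hr.1 i (by omega)
        · rw [Function.update_of_ne (by omega)]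
          exact hr.2 i hi
        · rw [h2, aval, Function.update_self, Function.update_self, map_one, mul_one]
          congr 1
          exact aval_congr ι κ m (fun i hi => by rw [Function.update_of_ne (by omega)])
            (fun i hi => by rw [Function.update_of_ne (by omega)])
    · refine happ (fun m' hm' => ?_)
      obtain rfl : m = m' := by omega
      exact fun j hj => h1 ⟨j, hj⟩

theorem ahas_all (ι : G →* I) (κ : K →* I) (H : Subgroup G) (s : G) (hs : s ∈ H) (σ : K)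
    (hrel : ι s = κ σ) (x : I) (hx : x ∈ Subgroup.closure (ι '' H ∪ Set.range κ)) :
    AHas ι κ H s σ x := by
  induction hx using Subgroup.closure_induction_right with
  | one => exact ⟨0, fun _ => 1, fun _ => 1, fun _ => H.one_mem,
      ⟨fun i hi => by omega, fun i hi => by omega⟩, by simp [aval]⟩
  | mul_right x hx y hy ih =>
    rcases hy with ⟨b, hb, rfl⟩ | ⟨c, rfl⟩
    · exact ahas_mul_base ι κ H s σ x b hb ih
    · exact ahas_mul_kap ι κ H s hs σ hrel x c ih
  | mul_inv_cancel x hx y hy ih =>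
    rcases hy with ⟨b, hb, rfl⟩ | ⟨c, rfl⟩
    · rw [← map_inv]
      exact ahas_mul_base ι κ H s σ x b⁻¹ (H.inv_mem hb) ih
    · rw [← map_inv]
      exact ahas_mul_kap ι κ H s hs σ hrel x c⁻¹ ih

/-- finite quotients of the two factors in which the orders of `s` and `σ` agree -/
theorem quotients (H : Subgroup G) (hH : Det H) (s : G) (hs : s ∈ H) (hp : Potent s)
    (hK : Group.ResiduallyFinite K) (σ : K) (χ : K →* Multiplicative ℤ)
    (hχ : χ σ = Multiplicative.ofAdd 1) (g : ℕ → G) (hg : ∀ i, g i ∈ H) (k : ℕ → K) (n : ℕ)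
    (hk : ∀ i < n, ∀ j : ℤ, k i ≠ σ ^ j) :
    ∃ (N : Subgroup G) (N' : Subgroup K), N.Normal ∧ N.FiniteIndex ∧ N'.Normal ∧
      N'.FiniteIndex ∧ (∀ i : ℤ, s ^ i ∈ N ↔ σ ^ i ∈ N') ∧ (∀ i ≤ n, g i ≠ 1 → g i ∉ N) ∧
      (∀ i ≤ n, (∀ j : ℤ, g i ≠ s ^ j) → ∀ j : ℤ, g i * s ^ (-j) ∉ N) ∧
      ∀ i < n, ∀ j : ℤ, k i * σ ^ (-j) ∉ N' := by
  obtain ⟨M, hM1, hM2, hM3⟩ := exists_common_nat
    (P := fun i (N : Subgroup K) => k i * σ ^ (-(Multiplicative.toAdd (χ (k i)))) ≠ 1 →
      k i * σ ^ (-(Multiplicative.toAdd (χ (k i)))) ∉ N)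
    (fun i N N' hN hP hb hb' => hP hb (hN hb'))
    (fun i => by
      by_cases hb : k i * σ ^ (-(Multiplicative.toAdd (χ (k i)))) = 1
      · exact ⟨⊤, inferInstance, inferInstance, fun h => absurd hb h⟩
      · obtain ⟨N, h1, h2, h3⟩ := (rf_iff K).1 hK _ hb
        exact ⟨N, h1, h2, fun _ => h3⟩) n
  obtain ⟨N1, hN1, hN2, hN3⟩ := exists_common_nat
    (P := fun i (N : Subgroup G) => (g i ≠ 1 → g i ∉ N) ∧ ((∀ j : ℤ, g i ≠ s ^ j) →
      ∀ j : ℤ, g i * s ^ (-j) ∉ N))
    (fun i N N' hN hP => ⟨fun hb hb' => hP.1 hb (hN hb'), fun hb j hj => hP.2 hb j (hN hj)⟩)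
    (fun i => by
      have hA : ∃ N : Subgroup G, N.Normal ∧ N.FiniteIndex ∧ (g i ≠ 1 → g i ∉ N) := by
        by_cases h : g i = 1
        · exact ⟨⊤, inferInstance, inferInstance, fun h' => absurd h h'⟩
        · obtain ⟨N, h1, h2, h3⟩ := hH (g i) (hg i) h
          exact ⟨N, h1, h2, fun _ => h3⟩
      have hB : ∃ N : Subgroup G, N.Normal ∧ N.FiniteIndex ∧
          ((∀ j : ℤ, g i ≠ s ^ j) → ∀ j : ℤ, g i * s ^ (-j) ∉ N) := by
        by_cases h : ∀ j : ℤ, g i ≠ s ^ j
        · obtain ⟨N, h1, h2, h3⟩ := potent_sep' H hH hs hp (g i) (hg i) h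
          exact ⟨N, h1, h2, fun _ => h3⟩
        · exact ⟨⊤, inferInstance, inferInstance, fun h' => absurd h' h⟩
      obtain ⟨N, h1, h2, h3⟩ := hA
      obtain ⟨N', h1', h2', h3'⟩ := hB
      exact ⟨N ⊓ N', inferInstance, inferInstance, fun hb hb' => h3 hb hb'.1,
        fun hb j hj => h3' hb j hj.2⟩) (n + 1)
  set o := M.index with ho
  have ho0 : 0 < o := Nat.pos_of_ne_zero hM2.index_ne_zero
  obtain ⟨J, hJ⟩ := hp 1
  have hJ1 : J = 0 := by
    have h : ∀ n : ℕ, 0 < n → (n : ℤ) ∣ J := by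
      intro n hn
      obtain ⟨N, _, _, h3⟩ := hJ n hn
      have := h3 0 (by simp)
      rwa [zero_sub, dvd_neg] at this
    have h2 := h (J.natAbs + 1) (by omega)
    by_contra h3
    have h4 := Int.le_of_dvd (by positivity) ((dvd_abs _ _).2 h2)
    push_cast at h4
    omega
  subst hJ1
  obtain ⟨N2, hN21, hN22, hN23⟩ := hJ o ho0
  let N := N1 ⊓ N2
  have hNn : N.Normal := inferInstance
  have hNf : N.FiniteIndex := inferInstance
  set r := orderOf ((s : G) : G ⧸ N) with hr
  have hr0 : 0 < r := orderOf_pos _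
  have hsr : ∀ i : ℤ, s ^ i ∈ N ↔ (r : ℤ) ∣ i := by
    intro i
    rw [hr, orderOf_dvd_iff_zpow_eq_one, ← QuotientGroup.mk_zpow, QuotientGroup.eq_one_iff]
  have hor : (o : ℤ) ∣ r := by
    have h1 := hN23 (-(r : ℤ)) (by
      rw [one_mul, neg_neg]
      exact ((hsr r).2 dvd_rfl).2)
    rw [sub_zero, dvd_neg] at h1
    exact h1
  have : NeZero r := ⟨hr0.ne'⟩
  let χr : K →* Multiplicative (ZMod r) := (Int.castAddHom (ZMod r)).toMultiplicative.comp χ
  have hχr : ∀ b : K, b ∈ χr.ker ↔ (r : ℤ) ∣ Multiplicative.toAdd (χ b) := by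
    intro b
    rw [MonoidHom.mem_ker]
    show Multiplicative.ofAdd ((Multiplicative.toAdd (χ b) : ℤ) : ZMod r) = 1 ↔ _
    rw [← ZMod.intCast_zmod_eq_zero_iff_dvd]
    exact Iff.rfl
  have hmemM : ∀ (x : K) (i : ℤ), (o : ℤ) ∣ i → x ^ i ∈ M := by
    rintro x i ⟨d, rfl⟩
    rw [zpow_mul, zpow_natCast]
    exact M.zpow_mem (M.pow_index_mem x) d
  have hfin : χr.ker.FiniteIndex := Subgroup.finiteIndex_ker _
  refine ⟨N, M ⊓ χr.ker, hNn, hNf, inferInstance, inferInstance, fun i => ?_,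
    fun i hi h1 h2 => (hN3 i (by omega)).1 h1 h2.1,
    fun i hi h1 j hj => (hN3 i (by omega)).2 h1 j hj.1, fun i hi j hj => ?_⟩
  · rw [hsr, Subgroup.mem_inf, hχr, map_zpow, hχ,
      show Multiplicative.toAdd ((Multiplicative.ofAdd (1 : ℤ)) ^ i) = i by simp]
    exact ⟨fun h => ⟨hmemM σ i (hor.trans h), h⟩, fun h => h.2⟩
  · have h1 : (o : ℤ) ∣ j - Multiplicative.toAdd (χ (k i)) := by
      have h2 := (hχr _).1 hj.2
      rw [map_mul, map_zpow, hχ, toAdd_mul,
        show Multiplicative.toAdd ((Multiplicative.ofAdd (1 : ℤ)) ^ (-j)) = -j by simp] at h2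
      have h3 := hor.trans h2
      have h4 : j - Multiplicative.toAdd (χ (k i)) = -(Multiplicative.toAdd (χ (k i)) + -j) := by
        ring
      rw [h4, dvd_neg]
      exact h3
    refine hM3 i hi ?_ ?_
    · intro h
      rw [zpow_neg, mul_inv_eq_one] at h
      exact hk i hi _ h
    · have h2 := M.mul_mem hj.1 (hmemM σ _ h1)
      rw [mul_assoc, ← zpow_add] at h2
      have h3 : -j + (j - Multiplicative.toAdd (χ (k i))) = -Multiplicative.toAdd (χ (k i)) := by
        ring
      rwa [h3] at h2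

theorem coset_ne {G : Type} [Group G] (N : Subgroup G) [hN : N.Normal] (s b : G)
    (h : ∀ j : ℤ, b * s ^ (-j) ∉ N) (i : ℤ) :
    (s ^ i) • ((b : G) : G ⧸ N) ≠ ((1 : G) : G ⧸ N) ∧
      (s ^ i) • ((1 : G) : G ⧸ N) ≠ ((b : G) : G ⧸ N) := by
  refine ⟨fun hi => ?_, fun hi => ?_⟩
  · rw [MulAction.Quotient.smul_coe, smul_eq_mul, eq_comm, QuotientGroup.eq, inv_one,
      one_mul] at hi
    have h1 := notMem_comm hi
    have h2 := h (-i)
    rw [neg_neg] at h2
    exact h2 h1
  · rw [MulAction.Quotient.smul_coe, smul_eq_mul, mul_one, QuotientGroup.eq] at hi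
    have h2 := h i
    rw [zpow_neg] at h2
    exact h2 (notMem_comm hi)

theorem path2 {G K I : Type} [Group G] [Group K] [Group I] (H : Subgroup G) (hH : Det H)
    (s : G) (hs : s ∈ H) (hp : Potent s)
    (hK : Group.ResiduallyFinite K) (σ : K) (χ : K →* Multiplicative ℤ)
    (hχ : χ σ = Multiplicative.ofAdd 1)
    (ι : G →* I) (κ : K →* I) (hrel : ι s = κ σ)
    (huniv : ∀ (Ω : Type) [Finite Ω] (ψ : G →* Equiv.Perm Ω) (φ : K →* Equiv.Perm Ω),
      ψ s = φ σ → ∃ Φ : I →* Equiv.Perm Ω, (∀ g, Φ (ι g) = ψ g) ∧ ∀ k, Φ (κ k) = φ k) :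
    Det (Subgroup.closure (ι '' H ∪ Set.range κ)) := by
  classical
  intro x hx hx1
  obtain ⟨n, g, k, hg, hr, rfl⟩ := ahas_all ι κ H s hs σ hrel x hx
  obtain ⟨N, N', hN1, hN2, hN1', hN2', hord, hgN, hgsN, hkN⟩ :=
    quotients H hH s hs hp hK σ χ hχ g hg k n hr.1
  have hfG : Finite (G ⧸ N) := inferInstance
  have hfK : Finite (K ⧸ N') := inferInstance
  have hcG : 0 < Nat.card (G ⧸ N) := Nat.card_pos
  have hcK : 0 < Nat.card (K ⧸ N') := Nat.card_pos
  set M := (n + 1) * Nat.card (K ⧸ N') with hM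
  set M' := (n + 1) * Nat.card (G ⧸ N) with hM'
  have hMn : n + 1 ≤ M := Nat.le_mul_of_pos_right _ hcK
  have hMn' : n + 1 ≤ M' := Nat.le_mul_of_pos_right _ hcG
  let Ω := (G ⧸ N) × Fin M
  let Ω' := (K ⧸ N') × Fin M'
  have hcard : Nat.card Ω = Nat.card Ω' := by
    show Nat.card ((G ⧸ N) × Fin M) = Nat.card ((K ⧸ N') × Fin M')
    rw [Nat.card_prod, Nat.card_prod, Nat.card_fin, Nat.card_fin, hM, hM']
    ring
  have hfΩ : Finite Ω := inferInstance
  have hfΩ' : Finite Ω' := inferInstance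
  obtain ⟨β⟩ : Nonempty (Ω ≃ Ω') :=
    ⟨(Finite.equivFinOfCardEq hcard).trans (Finite.equivFinOfCardEq rfl).symm⟩
  let ψ : G →* Equiv.Perm Ω := cop N M
  let φ0 : K →* Equiv.Perm Ω := β.symm.permCongrHom.toMonoidHom.comp (cop N' M')
  have hψ : ∀ (a : G) (q : G ⧸ N) (i : Fin M), ψ a (q, i) = (a • q, i) := fun a q i => rfl
  have hφ0 : ∀ (a : K) (q : K ⧸ N') (i : Fin M'),
      φ0 a (β.symm (q, i)) = β.symm (a • q, i) := by
    intro a q i
    show β.symm (cop N' M' a (β (β.symm (q, i)))) = _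
    rw [Equiv.apply_symm_apply]
    rfl
  have hfix : ∀ (a : G) (v : Ω), ψ a v = v ↔ a ∈ N := by
    rintro a ⟨q, i⟩
    rw [hψ, Prod.mk.injEq]
    simp [smul_eq_iff]
  have hfix' : ∀ (a : K) (v : Ω), φ0 a v = v ↔ a ∈ N' := by
    intro a v
    obtain ⟨⟨q, i⟩, rfl⟩ := β.symm.surjective v
    rw [hφ0, β.symm.injective.eq_iff, Prod.mk.injEq]
    simp [smul_eq_iff]
  -- the prescribed values
  let x : Fin n ⊕ Fin n → Ω := Sum.elim
    (fun i => (((g (i + 1) : G) : G ⧸ N), ⟨i + 1, by have := i.2; omega⟩))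
    (fun i => (((1 : G) : G ⧸ N), ⟨i, by have := i.2; omega⟩))
  let z : Fin n ⊕ Fin n → Ω := Sum.elim
    (fun i => β.symm (((1 : K) : K ⧸ N'), ⟨i, by have := i.2; omega⟩))
    (fun i => β.symm (((k i : K) : K ⧸ N'), ⟨i, by have := i.2; omega⟩))
  have hxx : ∀ (p q : Fin n ⊕ Fin n) (i : ℤ), ψ (s ^ i) (x p) = x q → p = q := by
    rintro (p | p) (q | q) i h
    · have h1 := congrArg (fun w : Ω => (w.2 : ℕ)) h
      have h2 : (p : ℕ) + 1 = q + 1 := h1
      rw [Sum.inl.injEq]
      exact Fin.ext (by omega)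
    · have h1 := congrArg (fun w : Ω => (w.2 : ℕ)) h
      have h2 : (p : ℕ) + 1 = q := h1
      have h3 := congrArg Prod.fst h
      have h4 : (s ^ i) • ((g (p + 1) : G) : G ⧸ N) = ((1 : G) : G ⧸ N) := h3
      exact absurd h4 (coset_ne N s (g (p + 1)) (hgsN (p + 1) (by have := q.2; omega)
        (hr.2 p (by have := q.2; omega))) i).1
    · have h1 := congrArg (fun w : Ω => (w.2 : ℕ)) h
      have h2 : (p : ℕ) = q + 1 := h1
      have h3 := congrArg Prod.fst h
      have h4 : (s ^ i) • ((1 : G) : G ⧸ N) = ((g (q + 1) : G) : G ⧸ N) := h3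
      exact absurd h4 (coset_ne N s (g (q + 1)) (hgsN (q + 1) (by have := p.2; omega)
        (hr.2 q (by have := p.2; omega))) i).2
    · have h1 := congrArg (fun w : Ω => (w.2 : ℕ)) h
      have h2 : (p : ℕ) = q := h1
      rw [Sum.inr.injEq]
      exact Fin.ext h2
  have hzz : ∀ (p q : Fin n ⊕ Fin n) (i : ℤ), φ0 (σ ^ i) (z p) = z q → p = q := by
    rintro (p | p) (q | q) i h
    · simp only [z, Sum.elim_inl] at h
      rw [hφ0, β.symm.injective.eq_iff, Prod.mk.injEq] at h
      rw [Sum.inl.injEq]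
      exact Fin.ext (Fin.mk.inj h.2)
    · simp only [z, Sum.elim_inl, Sum.elim_inr] at h
      rw [hφ0, β.symm.injective.eq_iff, Prod.mk.injEq] at h
      exact absurd h.1 (coset_ne N' σ (k q) (hkN q q.2) i).2
    · simp only [z, Sum.elim_inl, Sum.elim_inr] at h
      rw [hφ0, β.symm.injective.eq_iff, Prod.mk.injEq] at h
      exact absurd h.1 (coset_ne N' σ (k p) (hkN p p.2) i).1
    · simp only [z, Sum.elim_inr] at h
      rw [hφ0, β.symm.injective.eq_iff, Prod.mk.injEq] at h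
      rw [Sum.inr.injEq]
      exact Fin.ext (Fin.mk.inj h.2)
  obtain ⟨τ, hτ1, hτ2⟩ := ext_equivariant (ψ.comp (zpowersHom G s)) (φ0.comp (zpowersHom K σ))
    (fun c v w => by
      rw [MonoidHom.comp_apply, MonoidHom.comp_apply, hfix, hfix', zpowersHom_apply,
        zpowersHom_apply, hord])
    x z
    (fun p q c h => hxx p q (Multiplicative.toAdd c) (by
      rw [MonoidHom.comp_apply, zpowersHom_apply] at h
      exact h))
    (fun p q c h => hzz p q (Multiplicative.toAdd c) (by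
      rw [MonoidHom.comp_apply, zpowersHom_apply] at h
      exact h))
  let φ : K →* Equiv.Perm Ω := (MulAut.conj τ⁻¹).toMonoidHom.comp φ0
  have hφ : ∀ (a : K) (v : Ω), φ a v = τ⁻¹ (φ0 a (τ v)) := by
    intro a v
    show (τ⁻¹ * φ0 a * τ⁻¹⁻¹) v = _
    rw [inv_inv]
    rfl
  obtain ⟨Φ, hΦ1, hΦ2⟩ := huniv Ω ψ φ (by
    ext1 v
    have h := hτ1 (Multiplicative.ofAdd 1) v
    rw [MonoidHom.comp_apply, MonoidHom.comp_apply, zpowersHom_apply, zpowersHom_apply,
      toAdd_ofAdd, zpow_one, zpow_one] at h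
    rw [hφ, ← h]
    exact (Equiv.symm_apply_apply τ _).symm)
  refine det_of_hom Φ _ ?_
  have hpath : ∀ m (hm : m ≤ n), Φ (aval ι κ g k m) (((1 : G) : G ⧸ N), ⟨m, by omega⟩) =
      (((g 0 : G) : G ⧸ N), (⟨0, by omega⟩ : Fin M)) := by
    intro m
    induction m with
    | zero =>
      intro _
      rw [aval, hΦ1]
      show (g 0 • ((1 : G) : G ⧸ N), _) = _
      rw [MulAction.Quotient.smul_coe, smul_eq_mul, mul_one]
      rfl
    | succ m ih =>
      intro hm
      rw [aval, map_mul, map_mul, hΦ1, hΦ2, Equiv.Perm.mul_apply, Equiv.Perm.mul_apply]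
      have h1 : ψ (g (m + 1)) (((1 : G) : G ⧸ N), (⟨m + 1, by omega⟩ : Fin M)) =
          x (Sum.inl ⟨m, by omega⟩) := by
        show (g (m + 1) • ((1 : G) : G ⧸ N), _) = _
        rw [MulAction.Quotient.smul_coe, smul_eq_mul, mul_one]
        rfl
      have h2 : φ (k m) (x (Sum.inl ⟨m, by omega⟩)) = x (Sum.inr ⟨m, by omega⟩) := by
        rw [hφ, hτ2, Equiv.Perm.inv_eq_iff_eq, hτ2]
        simp only [z, Sum.elim_inl, Sum.elim_inr]
        rw [hφ0, MulAction.Quotient.smul_coe, smul_eq_mul, mul_one]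
      rw [h1, h2]
      exact ih (by omega)
  have hfinal := hpath n le_rfl
  intro hcon
  rw [hcon, Equiv.Perm.one_apply, Prod.mk.injEq] at hfinal
  have hn : n = 0 := congrArg Fin.val hfinal.2
  subst hn
  apply hx1
  have h1 : g 0 ∈ N := by
    have := hfinal.1
    rw [QuotientGroup.eq, inv_one, one_mul] at this
    exact this
  have h2 : g 0 = 1 := by
    by_contra h
    exact hgN 0 le_rfl h h1
  rw [aval, h2, map_one]

end Path2

end Pool.Agent.MP3f0e40.OU
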