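import Pool.Agent.Lib.MP_3f0e40_al.OU.Defs
import Pool.Agent.Lib.MP_3f0e40_al.OS.Univ

set_option autoImplicit false

/-!
# The base group of a general commutator word (module UV of project OU)
-/

namespace Pool.Agent.MP3f0e40.OU

open scoped commutatorElement
open Pool.Agent.MP3f0e40.OS (Low lev join shf low Det)

theorem ev2_zero {G : Type} [Group G] (x z : G) : ev2 x z (FreeGroup.of 0) = x := by
  unfold ev2
  rw [FreeGroup.lift_apply_of]
  rfl

theorem ev2_one {G : Type} [Group G] (x z : G) : ev2 x z (FreeGroup.of 1) = z := by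
  unfold ev2
  rw [FreeGroup.lift_apply_of]
  rfl

theorem ev2_map {G H : Type} [Group G] [Group H] (f : G →* H) (x z : G) (w : FreeGroup (Fin 2)) :
    f (ev2 x z w) = ev2 (f x) (f z) w := by
  have h : f.comp (ev2 x z) = ev2 (f x) (f z) := by
    refine FreeGroup.ext_hom _ _ fun i => ?_
    rw [MonoidHom.comp_apply]
    fin_cases i
    · change f (ev2 x z (FreeGroup.of 0)) = ev2 (f x) (f z) (FreeGroup.of 0)
      rw [ev2_zero, ev2_zero]
    · change f (ev2 x z (FreeGroup.of 1)) = ev2 (f x) (f z) (FreeGroup.of 1)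
      rw [ev2_one, ev2_one]
  exact DFunLike.congr_fun h w

theorem ev2_commute {G : Type} [Group G] {x z c : G} (hx : Commute x c) (hz : Commute z c)
    (w : FreeGroup (Fin 2)) : Commute (ev2 x z w) c := by
  induction w using FreeGroup.induction_on with
  | C1 => rw [map_one]; exact Commute.one_left c
  | of i =>
    fin_cases i
    · change Commute (ev2 x z (FreeGroup.of 0)) c
      rw [ev2_zero]
      exact hx
    · change Commute (ev2 x z (FreeGroup.of 1)) c
      rw [ev2_one]
      exact hz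
  | inv_of i ih =>
    rw [map_inv]
    exact ih.inv_left
  | mul w w' h h' =>
    rw [map_mul]
    exact h.mul_left h'

theorem comm_commutator (p q : FreeGroup (Fin 2)) : Comm ⁅p, q⁆ := by
  intro G _ x z h
  rw [map_commutatorElement]
  have hxz : Commute x z := h
  have hx : ∀ w, Commute x (ev2 x z w) := fun w =>
    (ev2_commute (Commute.refl x) hxz.symm w).symm
  have hz : ∀ w, Commute z (ev2 x z w) := fun w =>
    (ev2_commute hxz (Commute.refl z) w).symm
  exact commutatorElement_eq_one_iff_mul_comm.2 (ev2_commute (hx q) (hz q) p)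

/-- the relation of `Kgp u` -/
theorem ev2_of (u : FreeGroup (Fin 2)) :
    ev2 (PresentedGroup.of 0 : Kgp u) (PresentedGroup.of 1) u = 1 := by
  have h : PresentedGroup.mk ({u} : Set (FreeGroup (Fin 2))) =
      ev2 (PresentedGroup.of 0 : Kgp u) (PresentedGroup.of 1) := by
    refine FreeGroup.ext_hom _ _ fun i => ?_
    fin_cases i
    · change _ = ev2 _ _ (FreeGroup.of 0)
      rw [ev2_zero]
      rfl
    · change _ = ev2 _ _ (FreeGroup.of 1)
      rw [ev2_one]
      rfl
  rw [← h]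
  exact PresentedGroup.one_of_mem rfl

/-- homomorphisms from `Kgp u` -/
theorem exists_kgp {Q : Type} [Group Q] (u : FreeGroup (Fin 2)) (x z : Q) (h : ev2 x z u = 1) :
    ∃ χ : Kgp u →* Q, χ (PresentedGroup.of 0) = x ∧ χ (PresentedGroup.of 1) = z := by
  have hr : ∀ r ∈ ({u} : Set (FreeGroup (Fin 2))), FreeGroup.lift ![x, z] r = 1 := by
    intro r hr
    rw [Set.mem_singleton_iff] at hr
    rw [hr]
    exact h
  exact ⟨PresentedGroup.toGroup hr, PresentedGroup.toGroup.of hr, PresentedGroup.toGroup.of hr⟩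

section

variable {Y : Type} (a : Y) (v s : FreeGroup (Low a)) (u : FreeGroup (Fin 2))

theorem lift_rel {U : Type} [Group U] (f : Y × ℕ → U) (i : ℕ) :
    FreeGroup.lift f (rel a v s u i) =
      ev2 (f (a, i) * FreeGroup.lift (fun p : Low a => f (p.1.1, p.1.2 + i)) v)
        (FreeGroup.lift (fun p : Low a => f (p.1.1, p.1.2 + i)) s) u := by
  unfold rel
  rw [ev2_map, map_mul, OS.lift_lev, OS.lift_lev, FreeGroup.lift_apply_of]

theorem mk_eq_lift (w : FreeGroup (Y × ℕ)) :
    (PresentedGroup.mk (Set.range (rel a v s u)) w : Gam a v s u) =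
      FreeGroup.lift (fun p : Y × ℕ => gg a v s u p.1 p.2) w := by
  have h : PresentedGroup.mk (Set.range (rel a v s u)) =
      FreeGroup.lift (fun p : Y × ℕ => gg a v s u p.1 p.2) := by
    refine FreeGroup.ext_hom _ _ fun p => ?_
    rw [FreeGroup.lift_apply_of]
    rfl
  exact DFunLike.congr_fun h w

theorem lift_gg_rel (i : ℕ) :
    FreeGroup.lift (fun p : Y × ℕ => gg a v s u p.1 p.2) (rel a v s u i) = 1 := by
  rw [← mk_eq_lift]
  exact PresentedGroup.one_of_mem ⟨i, rfl⟩

theorem gg_rel (i : ℕ) :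
    ev2 (gg a v s u a i * FreeGroup.lift (fun p : Low a => gg a v s u p.1.1 (p.1.2 + i)) v)
      (FreeGroup.lift (fun p : Low a => gg a v s u p.1.1 (p.1.2 + i)) s) u = 1 := by
  have h := lift_gg_rel a v s u i
  rwa [lift_rel] at h

/-- homomorphisms from the base group -/
theorem exists_hom {U : Type} [Group U] (f : Y × ℕ → U)
    (h : ∀ i, ev2 (f (a, i) * FreeGroup.lift (fun p : Low a => f (p.1.1, p.1.2 + i)) v)
        (FreeGroup.lift (fun p : Low a => f (p.1.1, p.1.2 + i)) s) u = 1) :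
    ∃ F : Gam a v s u →* U, (∀ y i, F (gg a v s u y i) = f (y, i)) ∧
      ∀ w, F (PresentedGroup.mk _ w) = FreeGroup.lift f w := by
  have hr : ∀ r ∈ Set.range (rel a v s u), FreeGroup.lift f r = 1 := by
    rintro _ ⟨i, rfl⟩
    rw [lift_rel]
    exact h i
  exact ⟨PresentedGroup.toGroup hr, fun y i => PresentedGroup.toGroup.of hr, fun w => rfl⟩

theorem exists_sh : ∃ sh : Gam a v s u →* Gam a v s u,
    ∀ y i, sh (gg a v s u y i) = gg a v s u y (i + 1) := by
  obtain ⟨F, hF, -⟩ := exists_hom a v s u (fun p => gg a v s u p.1 (p.2 + 1)) fun i =>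
    gg_rel a v s u (i + 1)
  exact ⟨F, hF⟩

theorem rr_eq : rr a v s u = gg a v s u a 0 *
    FreeGroup.lift (fun p : Low a => gg a v s u p.1.1 p.1.2) v := by
  unfold rr
  rw [mk_eq_lift, map_mul, OS.lift_lev, FreeGroup.lift_apply_of]
  rfl

theorem ss_eq : ss a v s u = FreeGroup.lift (fun p : Low a => gg a v s u p.1.1 p.1.2) s := by
  unfold ss
  rw [mk_eq_lift, OS.lift_lev]
  rfl

theorem exists_kap : ∃ κ : Kgp u →* Gam a v s u,
    κ (PresentedGroup.of 0) = rr a v s u ∧ κ (PresentedGroup.of 1) = ss a v s u := by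
  refine exists_kgp u _ _ ?_
  rw [rr_eq, ss_eq]
  exact gg_rel a v s u 0

theorem exists_hom_of_central (hu : Comm u) {U : Type} [Group U]
    (hU : ∀ (ρ : FreeGroup (Low a) →* U) (x : U), ρ s * x = x * ρ s) (f : Y × ℕ → U) :
    ∃ F : Gam a v s u →* U, ∀ y i, F (gg a v s u y i) = f (y, i) := by
  obtain ⟨F, hF, -⟩ := exists_hom a v s u f fun i => hu U _ _
    (hU (FreeGroup.lift (fun p : Low a => f (p.1.1, p.1.2 + i))) _).symm
  exact ⟨F, hF⟩

theorem up {Q : Type} [Group Q] (θ : Gam a v s u →* Q) (τ : Y → Q) (χ : Kgp u →* Q)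
    (h : χ (PresentedGroup.of 1) =
      FreeGroup.lift (join (fun y i => θ (gg a v s u y i)) τ) s) :
    ∃ Φ : Gam a v s u →* Q, (∀ y i, Φ (gg a v s u y (i + 1)) = θ (gg a v s u y i)) ∧
      (∀ b, b ≠ a → Φ (gg a v s u b 0) = τ b) ∧ Φ (rr a v s u) = χ (PresentedGroup.of 0) := by
  classical
  set J : Low a → Q := join (fun y i => θ (gg a v s u y i)) τ with hJ
  let f : Y × ℕ → Q := fun p => match p.2 with
    | 0 => if p.1 = a then χ (PresentedGroup.of 0) * (FreeGroup.lift J v)⁻¹ else τ p.1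
    | i + 1 => θ (gg a v s u p.1 i)
  have hf0 : f (a, 0) = χ (PresentedGroup.of 0) * (FreeGroup.lift J v)⁻¹ := if_pos rfl
  have hfb : ∀ b, b ≠ a → f (b, 0) = τ b := fun b hb => if_neg hb
  have hfs : ∀ y i, f (y, i + 1) = θ (gg a v s u y i) := fun y i => rfl
  have hfJ : (fun p : Low a => f (p.1.1, p.1.2)) = J := by
    funext p
    obtain ⟨⟨y, i⟩, hp⟩ := p
    cases i with
    | zero =>
      have hy : y ≠ a := fun e => hp (by rw [e])
      exact hfb y hy
    | succ i => rfl
  obtain ⟨F, hF, hF'⟩ := exists_hom a v s u f fun i => by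
    cases i with
    | zero =>
      change ev2 (f (a, 0) * FreeGroup.lift (fun p : Low a => f (p.1.1, p.1.2)) v)
        (FreeGroup.lift (fun p : Low a => f (p.1.1, p.1.2)) s) u = 1
      rw [hfJ, hf0, inv_mul_cancel_right, ← h, ← ev2_map, ev2_of, map_one]
    | succ i =>
      have h1 : (fun p : Low a => f (p.1.1, p.1.2 + (i + 1))) =
          fun p : Low a => θ (gg a v s u p.1.1 (p.1.2 + i)) := rfl
      rw [h1, hfs]
      have h2 : ∀ w, FreeGroup.lift (fun p : Low a => θ (gg a v s u p.1.1 (p.1.2 + i))) w =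
          θ (FreeGroup.lift (fun p : Low a => gg a v s u p.1.1 (p.1.2 + i)) w) := fun w => by
        have h3 : FreeGroup.lift (fun p : Low a => θ (gg a v s u p.1.1 (p.1.2 + i))) =
            θ.comp (FreeGroup.lift (fun p : Low a => gg a v s u p.1.1 (p.1.2 + i))) := by
          refine FreeGroup.ext_hom _ _ fun p => ?_
          simp
        exact DFunLike.congr_fun h3 w
      rw [h2, h2, ← map_mul, ← ev2_map, gg_rel, map_one]
  refine ⟨F, fun y i => (hF y (i + 1)).trans (hfs y i), fun b hb => (hF b 0).trans (hfb b hb), ?_⟩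
  unfold rr
  rw [hF', map_mul, OS.lift_lev, FreeGroup.lift_apply_of, hf0]
  change _ * FreeGroup.lift (fun p : Low a => f (p.1.1, p.1.2)) v = χ (PresentedGroup.of 0)
  rw [hfJ, inv_mul_cancel_right]

theorem exists_del (hu : Comm u) : ∃ δ : Gam a v s u →* Gam a v s u,
    ∀ y i, δ (gg a v s u y (i + 1)) = gg a v s u y i := by
  obtain ⟨χ, -, h1⟩ := exists_kgp u (1 : Gam a v s u)
    (FreeGroup.lift (join (fun y i => MonoidHom.id (Gam a v s u) (gg a v s u y i)) fun _ => 1) s)
    (hu _ _ _ (by rw [one_mul, mul_one]))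
  obtain ⟨Φ, hΦ, -⟩ := up a v s u (MonoidHom.id _) (fun _ => 1) χ h1
  exact ⟨Φ, hΦ⟩

end

end Pool.Agent.MP3f0e40.OU
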