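import Pool.Agent.Lib.MP_3f0e40_al.OS.MainAux
import Pool.Agent.Lib.MP_3f0e40_al.OU.Step
import Pool.Agent.Lib.MP_3f0e40_al.OU.Base

set_option autoImplicit false

/-!
# The base group of project OU is residually finite
-/

namespace Pool.Agent.MP3f0e40.OU

open scoped commutatorElement
open Pool.Agent.MP3f0e40.OS (Low lev join shf low Det low_mono exists_low low_pred)

section

variable {Y : Type} (a : Y) (v s : FreeGroup (Low a)) (u : FreeGroup (Fin 2))

namespace Main

theorem rows_mono {m n : ℕ} (h : m ≤ n) : rows a v s u m ≤ rows a v s u n :=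
  Subgroup.closure_mono (by
    rintro x ⟨y, i, hi, rfl⟩
    exact ⟨y, i, lt_of_lt_of_le hi h, rfl⟩)

theorem exists_rows (g : Gam a v s u) : ∃ n, g ∈ rows a v s u n := by
  obtain ⟨w, rfl⟩ := PresentedGroup.mk_surjective _ g
  induction w using FreeGroup.induction_on with
  | C1 => exact ⟨0, by rw [map_one]; exact (rows a v s u 0).one_mem⟩
  | of p => exact ⟨p.2 + 1, Subgroup.subset_closure ⟨p.1, p.2, Nat.lt_succ_self _, rfl⟩⟩
  | inv_of p ih =>
    obtain ⟨m, hm⟩ := ih
    exact ⟨m, by rw [map_inv]; exact (rows a v s u m).inv_mem hm⟩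
  | mul x y hx hy =>
    obtain ⟨m, hm⟩ := hx
    obtain ⟨n, hn⟩ := hy
    exact ⟨max m n, by
      rw [map_mul]
      exact (rows a v s u _).mul_mem (rows_mono a v s u (le_max_left m n) hm)
        (rows_mono a v s u (le_max_right m n) hn)⟩

theorem det_zero : Det (rows a v s u 0) := by
  intro g hg hne
  exfalso
  apply hne
  have h1 : {x | ∃ y i, i < 0 ∧ x = gg a v s u y i} = (∅ : Set (Gam a v s u)) := by
    ext x
    simp
  rw [rows, h1, Subgroup.closure_empty, Subgroup.mem_bot] at hg
  exact hg

theorem rf_of_det (m : ℕ)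
    (hst : ∀ n, m ≤ n → Det (rows a v s u n) → Det (rows a v s u (n + 1)))
    (h : Det (rows a v s u m)) : Group.ResiduallyFinite (Gam a v s u) := by
  have h1 : ∀ n, m ≤ n → Det (rows a v s u n) := by
    intro n hn
    induction n, hn using Nat.le_induction with
    | base => exact h
    | succ n hn ih => exact hst n hn ih
  rw [rf_iff]
  intro g hg
  obtain ⟨n, hn⟩ := exists_rows a v s u g
  exact h1 (max m n) (le_max_left m n) g (rows_mono a v s u (le_max_right m n) hn) hg

end Main

open Main

theorem gam_rf [Finite Y] (hu : Comm u) (hK : Group.ResiduallyFinite (Kgp u)) (hs1 : s ≠ 1) :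
    Group.ResiduallyFinite (Gam a v s u) := by
  have key : ∀ m, v ∈ low a m → s ∈ low a m → Group.ResiduallyFinite (Gam a v s u) := by
    intro m
    induction m with
    | zero =>
      intro hv hs
      exact rf_of_det a v s u 0 (step a v s u hu hK hs1 0 hv hs) (det_zero a v s u)
    | succ m ih =>
      intro hv hs
      by_cases h : ∃ (c : Y) (N : ℕ), s ^ N * v⁻¹ ∉
          Subgroup.closure (FreeGroup.of '' {p : Low a | p.1 ≠ (c, m + 1)})
      · obtain ⟨c, N, hN⟩ := h
        exact rf_of_det a v s u (m + 1) (step a v s u hu hK hs1 (m + 1) hv hs)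
          (base a v s u hu m hv hs c N hN)
      · push Not at h
        have h1 : ∀ c : Y, v ∈
            Subgroup.closure (FreeGroup.of '' {p : Low a | p.1 ≠ (c, m + 1)}) := by
          intro c
          have := h c 0
          rwa [pow_zero, one_mul, Subgroup.inv_mem_iff] at this
        have h2 : ∀ c : Y, s ∈
            Subgroup.closure (FreeGroup.of '' {p : Low a | p.1 ≠ (c, m + 1)}) := by
          intro c
          have := Subgroup.mul_mem _ (h c 1) (h1 c)
          rwa [pow_one, inv_mul_cancel_right] at this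
        exact ih (low_pred a m hv h1) (low_pred a m hs h2)
  obtain ⟨m, hm⟩ := exists_low a v
  obtain ⟨n, hn⟩ := exists_low a s
  exact key (max m n) (low_mono a (le_max_left m n) hm) (low_mono a (le_max_right m n) hn)

end

end Pool.Agent.MP3f0e40.OU
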